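import Mathlib

set_option autoImplicit false

namespace Pool.Agent.Helper483.Lac

open MeasureTheory Finset

/-- distance to the nearest integer -/
noncomputable def nd (x : ℝ) : ℝ := |x - round x|

/-- Fejer type kernel, normalised so that its values lie in `[0,1]` and its mean is `1/H` -/
noncomputable def Phi (H : ℕ) (y : ℝ) : ℝ :=
  ‖∑ h ∈ range H, Complex.exp (2 * Real.pi * Complex.I * ((h : ℂ) * (y : ℂ)))‖ ^ 2 / (H : ℝ) ^ 2

noncomputable def fS (H : ℕ) (J : Finset ℕ) (t : ℕ → ℝ) (x : ℝ) : ℝ :=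
  ∑ j ∈ J, Phi H (t j * x)

/-- multiplicative energy -/
noncomputable def energy (H : ℕ) (J : Finset ℕ) (t : ℕ → ℝ) (r : ℝ) : ℕ :=
  open Classical in
  ((J ×ˢ J ×ˢ Icc 1 (H - 1) ×ˢ Icc 1 (H - 1)).filter
    (fun q : ℕ × ℕ × ℕ × ℕ => |(q.2.2.1 : ℝ) * t q.1 - (q.2.2.2 : ℝ) * t q.2.1| ≤ r)).card

/-- number of pairs of `m`-tuples in `[1,H)` with the same product -/
def Rm (H m : ℕ) : ℕ :=
  (((Fintype.piFinset (fun _ : Fin m => Icc 1 (H - 1))) ×ˢ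
    (Fintype.piFinset (fun _ : Fin m => Icc 1 (H - 1)))).filter
    (fun q => ∏ i, q.1 i = ∏ i, q.2 i)).card

/-- number of `m`-tuples of positive integers with product `< H` -/
def Tm (H m : ℕ) : ℕ :=
  ((Fintype.piFinset (fun _ : Fin m => Icc 1 (H - 1))).filter
    (fun d => ∏ i, d i < H)).card

/-- same dyadic node at level `n` -/
def same (n : ℕ) (x y : ℝ) : Prop := ⌊(2 : ℝ) ^ n * x⌋ = ⌊(2 : ℝ) ^ n * y⌋

/-- points surviving all events of index `< n` -/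
def surv {Ω : Type*} (G E : ℕ → Set Ω) (n : ℕ) : Set Ω := {ω | ∀ k < n, ω ∉ G k ∧ ω ∉ E k}

/-- cluster set of block `i` -/
def GG (H : ℕ) (J : ℕ → Finset ℕ) (t : ℕ → ℝ) (s : ℕ) (K : ℝ) (i : ℕ) : Set ℝ :=
  {x | x ∈ Set.Ico (0 : ℝ) 1 ∧ ∀ y, same (i + s) x y → K < fS H (J i) t y}

/-- kill set of block `i` -/
def EE (H : ℕ) (J : ℕ → Finset ℕ) (t : ℕ → ℝ) (s : ℕ) (K : ℝ) (u : ℕ) (δ : ℝ) (i : ℕ) : Set ℝ :=
  {x | x ∈ Set.Ico (0 : ℝ) 1 ∧ x ∉ GG H J t s K i ∧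
    ∃ y, same (i + u) x y ∧ ∃ j ∈ J i, nd (t j * y) < δ}

end Pool.Agent.Helper483.Lac
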