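import Mathlib
import Pool.Agent.Helper483.Lac.Defs

set_option autoImplicit false

namespace Pool.Agent.Helper483.Lac

open MeasureTheory Finset

theorem Phi_nonneg (H : ℕ) (y : ℝ) : 0 ≤ Phi H y := by
  unfold Phi; positivity

theorem Phi_continuous (H : ℕ) : Continuous (Phi H) := by
  unfold Phi; fun_prop

open Classical in
/-- the weighted graph whose closed walks are counted -/
noncomputable def Amat (H : ℕ) (J : Finset ℕ) (t : ℕ → ℝ) (r : ℝ) : Matrix J J ℝ :=
  fun j j' => (((Icc 1 (H - 1)) ×ˢ (Icc 1 (H - 1))).filter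
    (fun q : ℕ × ℕ => |(q.1 : ℝ) * t j - (q.2 : ℝ) * t j'| ≤ r)).card

end Pool.Agent.Helper483.Lac
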