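import Mathlib
import Pool.Agent.Helper483.Lac.Base

set_option autoImplicit false

namespace Pool.Agent.Helper483.Lac

open MeasureTheory Finset


/-- label sequences of paths -/
def closed_walk_P (r : ℝ) (J : Finset ℕ) (t : ℕ → ℝ) : (m : ℕ) → (Fin m → ℕ × ℕ) → J → J → Prop
  | 0, _, j, j' => j = j'
  | m + 1, q, j, j' => ∃ j'' : J, |((q 0).1 : ℝ) * t j - ((q 0).2 : ℝ) * t j''| ≤ r ∧
      closed_walk_P r J t m (fun i => q i.succ) j'' j'

theorem closed_walk_est (J : Finset ℕ) (t : ℕ → ℝ) (T r : ℝ) (hT : 0 < T) (hr : 0 ≤ r)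
    (hrT : r ≤ T) (hJ : ∀ j ∈ J, T ≤ t j ∧ t j < 2 * T) :
    ∀ (m : ℕ) (q : Fin m → ℕ × ℕ), (∀ i, 1 ≤ (q i).2) → ∀ (j j' : J),
      closed_walk_P r J t m q j j' →
      |(∏ i, ((q i).2 : ℝ)) * t j' - (∏ i, ((q i).1 : ℝ)) * t j| ≤
        3 ^ m * (∏ i, ((q i).2 : ℝ)) * r ∧
      (∏ i, ((q i).1 : ℝ)) ≤ 3 ^ m * (∏ i, ((q i).2 : ℝ)) := by
  intro m
  induction m with
  | zero =>
    intro q hq j j' h
    have h' : j = j' := h
    subst h'
    simp [hr]
  | succ m ih =>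
    intro q hq j j' h
    obtain ⟨j'', h1, h2⟩ := h
    obtain ⟨h3, h4⟩ := ih (fun i => q i.succ) (fun i => hq i.succ) j'' j' h2
    rw [Fin.prod_univ_succ, Fin.prod_univ_succ]
    have hK0 : 0 ≤ ∏ i : Fin m, ((q i.succ).1 : ℝ) := Finset.prod_nonneg fun i _ => by positivity
    have hL0 : 0 ≤ ∏ i : Fin m, ((q i.succ).2 : ℝ) := Finset.prod_nonneg fun i _ => by positivity
    obtain ⟨K, hK⟩ : ∃ K, K = ∏ i : Fin m, ((q i.succ).1 : ℝ) := ⟨_, rfl⟩
    obtain ⟨L, hL⟩ : ∃ L, L = ∏ i : Fin m, ((q i.succ).2 : ℝ) := ⟨_, rfl⟩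
    simp only [← hK, ← hL] at h3 h4 hK0 hL0 ⊢
    have hl1 : (1:ℝ) ≤ ((q 0).2 : ℝ) := by exact_mod_cast hq 0
    have hk0 : (0:ℝ) ≤ ((q 0).1 : ℝ) := by positivity
    obtain ⟨k, hk⟩ : ∃ k, k = ((q 0).1 : ℝ) := ⟨_, rfl⟩
    obtain ⟨l, hl⟩ : ∃ l, l = ((q 0).2 : ℝ) := ⟨_, rfl⟩
    rw [← hl] at hl1
    rw [← hk] at hk0
    simp only [← hk, ← hl] at h1 ⊢
    have h3m : (0:ℝ) < 3 ^ m := by positivity
    have hj := hJ j j.2
    have hj'' := hJ j'' j''.2
    have hkl : k ≤ 3 * l := by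
      have h5 := (abs_le.mp h1).2
      have h6 : k * T ≤ k * t j := mul_le_mul_of_nonneg_left hj.1 hk0
      have h7 : l * t j'' ≤ l * (2 * T) := mul_le_mul_of_nonneg_left hj''.2.le (by linarith)
      have h8 : T ≤ l * T := le_mul_of_one_le_left hT.le hl1
      have h9 : k * T ≤ 3 * l * T := by nlinarith
      exact le_of_mul_le_mul_right h9 hT
    constructor
    · have e1 : l * L * t j' - k * K * t j = l * (L * t j' - K * t j'') + K * (-(k * t j - l * t j'')) := by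
        ring
      rw [e1]
      have e2 : |l * (L * t j' - K * t j'')| ≤ l * (3 ^ m * L * r) := by
        rw [abs_mul, abs_of_nonneg (by linarith : (0:ℝ) ≤ l)]
        exact mul_le_mul_of_nonneg_left h3 (by linarith)
      have e3 : |K * (-(k * t j - l * t j''))| ≤ K * r := by
        rw [abs_mul, abs_neg, abs_of_nonneg hK0]
        exact mul_le_mul_of_nonneg_left h1 hK0
      have e4 : K * r ≤ 3 ^ m * L * r := mul_le_mul_of_nonneg_right h4 hr
      have e5 : 0 ≤ 3 ^ m * L * r := by positivity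
      have e6 : 3 ^ m * L * r ≤ l * (3 ^ m * L * r) := le_mul_of_one_le_left e5 hl1
      calc |l * (L * t j' - K * t j'') + K * (-(k * t j - l * t j''))|
          ≤ |l * (L * t j' - K * t j'')| + |K * (-(k * t j - l * t j''))| := abs_add_le _ _
        _ ≤ l * (3 ^ m * L * r) + l * (3 ^ m * L * r) := by linarith
        _ ≤ 3 ^ (m + 1) * (l * L) * r := by
          have : 3 ^ (m + 1) * (l * L) * r = 3 * (l * (3 ^ m * L * r)) := by ring
          rw [this]
          have : 0 ≤ l * (3 ^ m * L * r) := mul_nonneg (by linarith) e5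
          linarith
    · calc k * K ≤ (3 * l) * (3 ^ m * L) := mul_le_mul hkl h4 hK0 (by linarith)
        _ = 3 ^ (m + 1) * (l * L) := by ring

theorem closed_walk_uniq (J : Finset ℕ) (t : ℕ → ℝ) (r : ℝ) (hr : 0 ≤ r)
    (hsep : ∀ j ∈ J, ∀ j' ∈ J, j ≠ j' → 2 * r < |t j - t j'|) (j j1 j2 : J) (k l : ℕ) (hl : 1 ≤ l)
    (h1 : |(k : ℝ) * t j - (l : ℝ) * t j1| ≤ r) (h2 : |(k : ℝ) * t j - (l : ℝ) * t j2| ≤ r) :
    j1 = j2 := by
  by_contra hne
  have hne' : (j1 : ℕ) ≠ (j2 : ℕ) := fun h => hne (Subtype.ext h)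
  have h3 := hsep j1 j1.2 j2 j2.2 hne'
  have hl' : (1:ℝ) ≤ (l : ℝ) := by exact_mod_cast hl
  have h4 : |(l : ℝ) * (t j1 - t j2)| ≤ 2 * r := by
    have e : (l : ℝ) * (t j1 - t j2) = ((k : ℝ) * t j - (l : ℝ) * t j2) - ((k : ℝ) * t j - (l : ℝ) * t j1) := by
      ring
    rw [e]
    have := abs_sub ((k : ℝ) * t j - (l : ℝ) * t j2) ((k : ℝ) * t j - (l : ℝ) * t j1)
    linarith
  rw [abs_mul, abs_of_nonneg (by linarith : (0:ℝ) ≤ l)] at h4
  have h5 : |t j1 - t j2| ≤ (l:ℝ) * |t j1 - t j2| := le_mul_of_one_le_left (abs_nonneg _) hl'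
  linarith

open Classical in
theorem closed_walk_count (H : ℕ) (J : Finset ℕ) (t : ℕ → ℝ) (r : ℝ) (hr : 0 ≤ r)
    (hsep : ∀ j ∈ J, ∀ j' ∈ J, j ≠ j' → 2 * r < |t j - t j'|) (m : ℕ) : ∀ (j j' : J),
    ((Amat H J t r) ^ m) j j' ≤
      (((Fintype.piFinset (fun _ : Fin m => (Icc 1 (H - 1)) ×ˢ (Icc 1 (H - 1)))).filter
        (fun q => closed_walk_P r J t m q j j')).card : ℝ) := by
  induction m with
  | zero =>
    intro j j'
    rw [pow_zero, Matrix.one_apply]
    split_ifs with hj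
    · have : (Fintype.piFinset (fun _ : Fin 0 => (Icc 1 (H - 1)) ×ˢ (Icc 1 (H - 1)))).filter
        (fun q => closed_walk_P r J t 0 q j j') = {fun i => i.elim0} := by
        ext q
        simp only [mem_filter, Fintype.mem_piFinset, mem_singleton]
        constructor
        · intro _
          funext i
          exact i.elim0
        · intro _
          exact ⟨fun i => i.elim0, hj⟩
      rw [this]
      simp
    · positivity
  | succ m ih =>
    intro j j'
    rw [pow_succ', Matrix.mul_apply]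
    have hA0 : ∀ i : J, 0 ≤ Amat H J t r j i := fun i => by unfold Amat; positivity
    refine (Finset.sum_le_sum fun i _ => mul_le_mul_of_nonneg_left (ih i j') (hA0 i)).trans ?_
    have hS : ((((Finset.univ : Finset J).sigma (fun i : J =>
        (((Icc 1 (H - 1)) ×ˢ (Icc 1 (H - 1))).filter
          (fun q : ℕ × ℕ => |(q.1 : ℝ) * t j - (q.2 : ℝ) * t i| ≤ r)) ×ˢ
        ((Fintype.piFinset (fun _ : Fin m => (Icc 1 (H - 1)) ×ˢ (Icc 1 (H - 1)))).filter
        (fun q => closed_walk_P r J t m q i j')))).card : ℕ) : ℝ) =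
        ∑ i : J, Amat H J t r j i * (((Fintype.piFinset (fun _ : Fin m =>
          (Icc 1 (H - 1)) ×ˢ (Icc 1 (H - 1)))).filter
        (fun q => closed_walk_P r J t m q i j')).card : ℝ) := by
      rw [Finset.card_sigma]
      push_cast
      apply Finset.sum_congr rfl
      intro i _
      rw [Finset.card_product]
      push_cast
      rfl
    rw [← hS]
    norm_cast
    refine Finset.card_le_card_of_injOn
      (fun x : (Σ _ : J, (ℕ × ℕ) × (Fin m → ℕ × ℕ)) => (Fin.cons x.2.1 x.2.2 : Fin (m + 1) → ℕ × ℕ)) ?_ ?_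
    · rintro ⟨i, p, q⟩ hx
      simp only [coe_sigma, Set.mem_sigma_iff, mem_coe, mem_univ, mem_product, mem_filter,
        Fintype.mem_piFinset, true_and] at hx
      obtain ⟨⟨hp1, hp2⟩, hq1, hq2⟩ := hx
      simp only [mem_coe, mem_filter, Fintype.mem_piFinset]
      refine ⟨?_, i, ?_, ?_⟩
      · intro a
        refine Fin.cases ?_ (fun a => ?_) a
        · simpa using hp1
        · simpa using hq1 a
      · simpa using hp2
      · simpa using hq2
    · rintro ⟨i, p, q⟩ hx ⟨i', p', q'⟩ hx' hxx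
      simp only [coe_sigma, Set.mem_sigma_iff, mem_coe, mem_univ, mem_product, mem_filter,
        Fintype.mem_piFinset, true_and, mem_Icc] at hx hx'
      have h1 : p = p' := by
        have := congrFun hxx 0
        simpa using this
      have h2 : q = q' := by
        funext a
        have := congrFun hxx a.succ
        simpa using this
      subst h1
      subst h2
      have h3 : i = i' := closed_walk_uniq J t r hr hsep j i i' p.1 p.2 hx.1.1.2.1 hx.1.2 hx'.1.2
      subst h3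
      rfl

theorem closed_walk (H m : ℕ) (J : Finset ℕ) (t : ℕ → ℝ) (T r : ℝ) (hT : 0 < T) (hr : 0 ≤ r)
    (hrT : r ≤ T) (hJ : ∀ j ∈ J, T ≤ t j ∧ t j < 2 * T)
    (hsep : ∀ j ∈ J, ∀ j' ∈ J, j ≠ j' → 2 * r < |t j - t j'|)
    (hex : (3 : ℝ) ^ m * r * (H : ℝ) ^ m < T) (j : J) :
    ((Amat H J t r) ^ m) j j ≤ (Rm H m : ℝ) := by
  classical
  refine (closed_walk_count H J t r hr hsep m j j).trans ?_
  norm_cast
  unfold Rm
  refine Finset.card_le_card_of_injOn
    (fun q : Fin m → ℕ × ℕ => ((fun i => (q i).1, fun i => (q i).2) : (Fin m → ℕ) × (Fin m → ℕ))) ?_ ?_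
  · intro q hq
    simp only [mem_coe, mem_filter, Fintype.mem_piFinset, mem_product] at hq
    obtain ⟨hq1, hq2⟩ := hq
    simp only [mem_coe, mem_filter, Fintype.mem_piFinset, mem_product]
    refine ⟨⟨fun i => (hq1 i).1, fun i => (hq1 i).2⟩, ?_⟩
    have hq1' : ∀ i, 1 ≤ (q i).2 := fun i => (mem_Icc.mp (hq1 i).2).1
    obtain ⟨h1, -⟩ := closed_walk_est J t T r hT hr hrT hJ m q hq1' j j hq2
    by_contra hne
    have hne' : (1:ℤ) ≤ |(∏ i, ((q i).2 : ℤ)) - (∏ i, ((q i).1 : ℤ))| := by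
      apply Int.one_le_abs
      intro h0
      apply hne
      have h2 : (∏ i, ((q i).2 : ℤ)) = (∏ i, ((q i).1 : ℤ)) := by linarith
      exact_mod_cast h2.symm
    have hne'' : (1:ℝ) ≤ |(∏ i, ((q i).2 : ℝ)) - (∏ i, ((q i).1 : ℝ))| := by exact_mod_cast hne'
    rw [← sub_mul, abs_mul] at h1
    have htj := hJ j j.2
    rw [abs_of_nonneg (by linarith [htj.1] : (0:ℝ) ≤ t j)] at h1
    have h3 : t j ≤ |(∏ i, ((q i).2 : ℝ)) - (∏ i, ((q i).1 : ℝ))| * t j :=
      le_mul_of_one_le_left (by linarith [htj.1]) hne''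
    have h4 : (∏ i, ((q i).2 : ℝ)) ≤ (H:ℝ) ^ m := by
      calc (∏ i, ((q i).2 : ℝ)) ≤ ∏ _i : Fin m, (H:ℝ) := by
            apply Finset.prod_le_prod
            · intro i _; positivity
            · intro i _
              have := (mem_Icc.mp (hq1 i).2).2
              have h5 : (q i).2 ≤ H := by omega
              exact_mod_cast h5
        _ = (H:ℝ) ^ m := by simp
    have h5 : 3 ^ m * (∏ i, ((q i).2 : ℝ)) * r ≤ 3 ^ m * r * (H:ℝ) ^ m := by
      have : 0 ≤ (3:ℝ) ^ m * r := by positivity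
      calc 3 ^ m * (∏ i, ((q i).2 : ℝ)) * r = (3 ^ m * r) * (∏ i, ((q i).2 : ℝ)) := by ring
        _ ≤ (3 ^ m * r) * (H:ℝ) ^ m := mul_le_mul_of_nonneg_left h4 this
    linarith [htj.1]
  · intro q _ q' _ hqq
    funext i
    have h1 := congrFun (congrArg Prod.fst hqq) i
    have h2 := congrFun (congrArg Prod.snd hqq) i
    exact Prod.ext h1 h2


end Pool.Agent.Helper483.Lac
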