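import Mathlib
import Pool.Agent.Helper483.Lac.Base

set_option autoImplicit false

namespace Pool.Agent.Helper483.Lac

open MeasureTheory Finset


/-- the character -/
noncomputable def vr5_e (y : ℝ) : ℂ := Complex.exp (2 * Real.pi * Complex.I * (y : ℂ))

lemma vr5_e_add (x y : ℝ) : vr5_e (x + y) = vr5_e x * vr5_e y := by
  unfold vr5_e
  rw [← Complex.exp_add]
  congr 1
  push_cast
  ring

lemma vr5_e_zero : vr5_e 0 = 1 := by simp [vr5_e]

lemma vr5_e_conj (y : ℝ) : (starRingEnd ℂ) (vr5_e y) = vr5_e (-y) := by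
  unfold vr5_e
  rw [← Complex.exp_conj]
  congr 1
  have h2 : (starRingEnd ℂ) 2 = 2 := map_ofNat _ 2
  simp [h2]

lemma vr5_e_norm (y : ℝ) : ‖vr5_e y‖ = 1 := by
  unfold vr5_e
  rw [Complex.norm_exp]
  simp

lemma vr5_e_cont (c : ℝ) : Continuous fun x : ℝ => vr5_e (c * x) := by
  unfold vr5_e
  fun_prop

lemma vr5_int1 (c a b : ℝ) (hab : a ≤ b) : ‖∫ x in a..b, vr5_e (c * x)‖ ≤ b - a := by
  have h1 := intervalIntegral.norm_integral_le_of_norm_le_const (a := a) (b := b)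
    (f := fun x => vr5_e (c * x)) (C := 1) (fun x _ => (vr5_e_norm _).le)
  rwa [one_mul, abs_of_nonneg (by linarith)] at h1

lemma vr5_int2 (c a b r : ℝ) (hr : 0 < r) (hc : r < |c|) :
    ‖∫ x in a..b, vr5_e (c * x)‖ ≤ 1 / r := by
  have hc0 : c ≠ 0 := by
    rintro rfl
    rw [abs_zero] at hc
    linarith
  have hpi := Real.pi_pos
  have hcc : (2 * Real.pi * Complex.I * (c : ℂ)) ≠ 0 := by
    refine mul_ne_zero (mul_ne_zero (mul_ne_zero two_ne_zero ?_) Complex.I_ne_zero) ?_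
    · exact_mod_cast hpi.ne'
    · exact_mod_cast hc0
  have h1 : ∀ x : ℝ, vr5_e (c * x) = Complex.exp (2 * Real.pi * Complex.I * (c : ℂ) * (x : ℂ)) := by
    intro x
    unfold vr5_e
    congr 1
    push_cast
    ring
  simp only [h1]
  rw [integral_exp_mul_complex hcc, norm_div]
  have h2 : ‖Complex.exp (2 * Real.pi * Complex.I * (c : ℂ) * (b : ℂ)) -
      Complex.exp (2 * Real.pi * Complex.I * (c : ℂ) * (a : ℂ))‖ ≤ 2 := by
    rw [← h1, ← h1]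
    refine (norm_sub_le _ _).trans ?_
    rw [vr5_e_norm, vr5_e_norm]
    norm_num
  have h3 : ‖(2 * Real.pi * Complex.I * (c : ℂ))‖ = 2 * Real.pi * |c| := by
    rw [norm_mul, norm_mul, norm_mul, Complex.norm_I, Complex.norm_real, Complex.norm_real,
      Real.norm_eq_abs, Real.norm_eq_abs, abs_of_pos hpi]
    simp
  rw [h3, div_le_div_iff₀ (by positivity) hr]
  have h4 : r ≤ Real.pi * |c| := by
    have : 1 ≤ Real.pi := by linarith [Real.pi_gt_three]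
    nlinarith [abs_nonneg c]
  nlinarith [norm_nonneg (Complex.exp (2 * Real.pi * Complex.I * (c : ℂ) * (b : ℂ)) -
      Complex.exp (2 * Real.pi * Complex.I * (c : ℂ) * (a : ℂ)))]

lemma vr5_Phi (H : ℕ) (y : ℝ) : ((Phi H y : ℝ) : ℂ) =
    (∑ h ∈ range H, ∑ h' ∈ range H, vr5_e (((h : ℝ) - h') * y)) / (H : ℂ) ^ 2 := by
  unfold Phi
  have h1 : ∀ h : ℕ, Complex.exp (2 * Real.pi * Complex.I * ((h : ℂ) * (y : ℂ))) =
      vr5_e ((h : ℝ) * y) := by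
    intro h
    unfold vr5_e
    push_cast
    rfl
  simp only [h1]
  push_cast
  rw [← Complex.mul_conj']
  congr 1
  rw [map_sum, Finset.sum_mul_sum]
  refine Finset.sum_congr rfl fun h _ => Finset.sum_congr rfl fun h' _ => ?_
  rw [vr5_e_conj, ← vr5_e_add]
  congr 1
  ring

/-- the frequencies -/
noncomputable def vr5_xi (t : ℕ → ℝ) (q : ℕ × ℕ × ℕ) : ℝ := ((q.2.1 : ℝ) - q.2.2) * t q.1

/-- the index set -/
def vr5_Q (H : ℕ) (J : Finset ℕ) : Finset (ℕ × ℕ × ℕ) :=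
  (J ×ˢ range H ×ˢ range H).filter (fun q => q.2.1 ≠ q.2.2)

lemma vr5_mem {H : ℕ} {J : Finset ℕ} {q : ℕ × ℕ × ℕ} : q ∈ vr5_Q H J ↔
    q.1 ∈ J ∧ q.2.1 < H ∧ q.2.2 < H ∧ q.2.1 ≠ q.2.2 := by
  simp [vr5_Q, and_assoc]

lemma vr5_g (H : ℕ) (hH : 1 ≤ H) (J : Finset ℕ) (t : ℕ → ℝ) (x : ℝ) :
    ((fS H J t x - (J.card : ℝ) / H : ℝ) : ℂ) =
      (∑ q ∈ vr5_Q H J, vr5_e (vr5_xi t q * x)) / (H : ℂ) ^ 2 := by
  have hH0 : (H : ℂ) ≠ 0 := by
    have : H ≠ 0 := by omega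
    exact_mod_cast this
  have h1 : ((fS H J t x : ℝ) : ℂ) =
      (∑ q ∈ J ×ˢ range H ×ˢ range H, vr5_e (vr5_xi t q * x)) / (H : ℂ) ^ 2 := by
    unfold fS
    push_cast
    rw [Finset.sum_product, Finset.sum_div]
    refine Finset.sum_congr rfl fun j _ => ?_
    rw [vr5_Phi, Finset.sum_product]
    congr 1
    refine Finset.sum_congr rfl fun h _ => Finset.sum_congr rfl fun h' _ => ?_
    unfold vr5_xi
    congr 1
    ring
  have h2 : (∑ q ∈ J ×ˢ range H ×ˢ range H, vr5_e (vr5_xi t q * x)) =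
      (∑ q ∈ vr5_Q H J, vr5_e (vr5_xi t q * x)) + (J.card : ℂ) * H := by
    rw [← Finset.sum_filter_add_sum_filter_not (J ×ˢ range H ×ˢ range H)
      (fun q : ℕ × ℕ × ℕ => q.2.1 ≠ q.2.2)]
    congr 1
    have h3 : ∀ q ∈ (J ×ˢ range H ×ˢ range H).filter (fun q : ℕ × ℕ × ℕ => ¬ q.2.1 ≠ q.2.2),
        vr5_e (vr5_xi t q * x) = 1 := by
      intro q hq
      have h4 := (Finset.mem_filter.1 hq).2
      rw [not_not] at h4
      unfold vr5_xi
      rw [h4, sub_self, zero_mul, zero_mul, vr5_e_zero]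
    rw [Finset.sum_congr rfl h3, Finset.sum_filter, Finset.sum_product]
    simp only [Finset.sum_product, not_not, Finset.sum_ite_eq, Finset.mem_range]
    have h5 : ∀ j ∈ J, (∑ h ∈ range H, if h < H then (1 : ℂ) else 0) = H := by
      intro j _
      rw [Finset.sum_congr rfl fun h hh => if_pos (Finset.mem_range.1 hh)]
      simp
    rw [Finset.sum_congr rfl h5]
    simp
  push_cast
  rw [h1, h2]
  generalize (∑ q ∈ vr5_Q H J, vr5_e (vr5_xi t q * x)) = W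
  field_simp
  ring

lemma vr5_sq (H : ℕ) (hH : 1 ≤ H) (J : Finset ℕ) (t : ℕ → ℝ) (x : ℝ) :
    (((fS H J t x - (J.card : ℝ) / H) ^ 2 : ℝ) : ℂ) =
      (1 / (H : ℂ) ^ 4) * ∑ p ∈ vr5_Q H J ×ˢ vr5_Q H J,
        vr5_e ((vr5_xi t p.1 - vr5_xi t p.2) * x) := by
  set g : ℝ := fS H J t x - (J.card : ℝ) / H with hg
  have h1 : ((g ^ 2 : ℝ) : ℂ) = (g : ℂ) * (starRingEnd ℂ) (g : ℂ) := by
    rw [Complex.conj_ofReal]
    push_cast
    ring
  rw [h1, hg, vr5_g H hH J t x, map_div₀, map_sum, map_pow, Complex.conj_natCast,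
    div_mul_div_comm, Finset.sum_mul_sum, Finset.sum_product]
  rw [div_eq_mul_one_div, mul_comm]
  congr 1
  · ring
  · refine Finset.sum_congr rfl fun q _ => Finset.sum_congr rfl fun q' _ => ?_
    rw [vr5_e_conj, ← vr5_e_add]
    congr 1
    ring

lemma vr5_cardQ (H : ℕ) (J : Finset ℕ) : (vr5_Q H J).card ≤ J.card * H ^ 2 := by
  unfold vr5_Q
  refine (Finset.card_filter_le _ _).trans (le_of_eq ?_)
  simp [Finset.card_product, sq]

lemma vr5_sign {H : ℕ} {J : Finset ℕ} {t : ℕ → ℝ} {T r : ℝ} (hT : 0 < T) (hrT : r < T)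
    (hJ : ∀ j ∈ J, T ≤ t j) {q q' : ℕ × ℕ × ℕ} (hq : q ∈ vr5_Q H J) (hq' : q' ∈ vr5_Q H J)
    (h : |vr5_xi t q - vr5_xi t q'| ≤ r) : (q.2.1 < q.2.2 ↔ q'.2.1 < q'.2.2) := by
  rw [vr5_mem] at hq hq'
  have key : ∀ p : ℕ × ℕ × ℕ, p.1 ∈ J → p.2.1 ≠ p.2.2 →
      (p.2.1 < p.2.2 → vr5_xi t p ≤ -T) ∧ (¬ p.2.1 < p.2.2 → T ≤ vr5_xi t p) := by
    intro p hp hne
    have ht := hJ _ hp
    constructor
    · intro h1
      have h2 : (p.2.1 : ℝ) + 1 ≤ p.2.2 := by exact_mod_cast h1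
      unfold vr5_xi
      nlinarith
    · intro h1
      have h1' : p.2.2 < p.2.1 := by omega
      have h2 : (p.2.2 : ℝ) + 1 ≤ p.2.1 := by exact_mod_cast h1'
      unfold vr5_xi
      nlinarith
  obtain ⟨k1, k2⟩ := key q hq.1 hq.2.2.2
  obtain ⟨k3, k4⟩ := key q' hq'.1 hq'.2.2.2
  rw [abs_le] at h
  constructor
  · intro h1
    by_contra h2
    have := k1 h1
    have := k4 h2
    linarith [h.1]
  · intro h1
    by_contra h2
    have := k2 h2
    have := k3 h1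
    linarith [h.2]

lemma vr5_near (H : ℕ) (J : Finset ℕ) (t : ℕ → ℝ) (T r : ℝ) (hT : 0 < T) (hrT : r < T)
    (hJ : ∀ j ∈ J, T ≤ t j) (F : Finset ((ℕ × ℕ × ℕ) × (ℕ × ℕ × ℕ)))
    (hF : ∀ p ∈ F, p.1 ∈ vr5_Q H J ∧ p.2 ∈ vr5_Q H J ∧ |vr5_xi t p.1 - vr5_xi t p.2| ≤ r) :
    F.card ≤ energy H J t r * (2 * (H * H)) := by
  obtain ⟨S, hS, hcard⟩ : ∃ S : Finset (ℕ × ℕ × ℕ × ℕ), (∀ q, q ∈ S ↔ ((q.1 ∈ J ∧ q.2.1 ∈ J ∧
      (1 ≤ q.2.2.1 ∧ q.2.2.1 ≤ H - 1) ∧ (1 ≤ q.2.2.2 ∧ q.2.2.2 ≤ H - 1)) ∧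
      |(q.2.2.1 : ℝ) * t q.1 - (q.2.2.2 : ℝ) * t q.2.1| ≤ r)) ∧ S.card = energy H J t r := by
    refine ⟨_, fun q => ?_, rfl⟩
    simp only [Finset.mem_filter, Finset.mem_product, Finset.mem_Icc]
  rw [← hcard]
  have h1 : (S ×ˢ (Finset.univ : Finset Bool) ×ˢ range H ×ˢ range H).card =
      S.card * (2 * (H * H)) := by
    simp [Finset.card_product]
  rw [← h1]
  refine Finset.card_le_card_of_injOn
    (fun p => ((p.1.1, p.2.1, (p.1.2.1 - p.1.2.2) + (p.1.2.2 - p.1.2.1),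
      (p.2.2.1 - p.2.2.2) + (p.2.2.2 - p.2.2.1)), decide (p.1.2.1 < p.1.2.2), p.1.2.1, p.2.2.1))
    ?_ ?_
  · intro p hp
    obtain ⟨hp1, hp2, hp3⟩ := hF p hp
    have hsg := vr5_sign hT hrT hJ hp1 hp2 hp3
    rw [vr5_mem] at hp1 hp2
    simp only [Finset.coe_product, Set.mem_prod, Finset.mem_coe, Finset.mem_univ, true_and,
      Finset.mem_range, hS]
    refine ⟨⟨⟨hp1.1, hp2.1, ⟨by omega, by omega⟩, by omega, by omega⟩, ?_⟩, hp1.2.1, hp2.2.1⟩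
    rcases lt_or_ge p.1.2.1 p.1.2.2 with h2 | h2
    · have h3 := hsg.1 h2
      have e1 : (((p.1.2.1 - p.1.2.2) + (p.1.2.2 - p.1.2.1) : ℕ) : ℝ) = p.1.2.2 - p.1.2.1 := by
        rw [Nat.sub_eq_zero_of_le h2.le, zero_add, Nat.cast_sub h2.le]
      have e2 : (((p.2.2.1 - p.2.2.2) + (p.2.2.2 - p.2.2.1) : ℕ) : ℝ) = p.2.2.2 - p.2.2.1 := by
        rw [Nat.sub_eq_zero_of_le h3.le, zero_add, Nat.cast_sub h3.le]
      rw [e1, e2]
      unfold vr5_xi at hp3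
      rw [← abs_neg] at hp3
      convert hp3 using 2
      ring
    · have h3 : p.2.2.2 ≤ p.2.2.1 := by
        by_contra h4
        have := hsg.2 (by omega)
        omega
      have e1 : (((p.1.2.1 - p.1.2.2) + (p.1.2.2 - p.1.2.1) : ℕ) : ℝ) = p.1.2.1 - p.1.2.2 := by
        rw [Nat.sub_eq_zero_of_le h2, add_zero, Nat.cast_sub h2]
      have e2 : (((p.2.2.1 - p.2.2.2) + (p.2.2.2 - p.2.2.1) : ℕ) : ℝ) = p.2.2.1 - p.2.2.2 := by
        rw [Nat.sub_eq_zero_of_le h3, add_zero, Nat.cast_sub h3]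
      rw [e1, e2]
      exact hp3
  · intro p hp p' hp' heq
    obtain ⟨hp1, hp2, hp3⟩ := hF p hp
    obtain ⟨hp1', hp2', hp3'⟩ := hF p' hp'
    have hsg := vr5_sign hT hrT hJ hp1 hp2 hp3
    have hsg' := vr5_sign hT hrT hJ hp1' hp2' hp3'
    rw [vr5_mem] at hp1 hp2 hp1' hp2'
    simp only [Prod.mk.injEq, decide_eq_decide] at heq
    obtain ⟨⟨a1, a2, a3, a4⟩, a5, a6, a7⟩ := heq
    obtain ⟨⟨j, h1, h2⟩, ⟨j', h3, h4⟩⟩ := p
    obtain ⟨⟨i, g1, g2⟩, ⟨i', g3, g4⟩⟩ := p'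
    simp only at *
    have b2 : h2 = g2 := by
      by_cases hc : h1 < h2
      · have := a5.1 hc
        omega
      · have : ¬ g1 < g2 := fun h => hc (a5.2 h)
        omega
    have b4 : h4 = g4 := by
      by_cases hc : h1 < h2
      · have c1 := a5.1 hc
        have c2 := hsg.1 hc
        have c3 := hsg'.1 c1
        omega
      · have c1 : ¬ g1 < g2 := fun h => hc (a5.2 h)
        have c2 : ¬ h3 < h4 := fun h => hc (hsg.2 h)
        have c3 : ¬ g3 < g4 := fun h => c1 (hsg'.2 h)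
        omega
    subst a1 a2 a6 a7 b2 b4
    rfl


theorem variance (H : ℕ) (hH : 1 ≤ H) (J : Finset ℕ) (t : ℕ → ℝ) (T r : ℝ) (hT : 0 < T)
    (hr : 0 < r) (hrT : r < T) (hJ : ∀ j ∈ J, T ≤ t j) (a b : ℝ) (hab : a ≤ b) :
    ∫ x in a..b, (fS H J t x - (J.card : ℝ) / H) ^ 2 ≤
      2 * (energy H J t r : ℝ) * (b - a) / (H : ℝ) ^ 2 + (J.card : ℝ) ^ 2 / r := by
  classical
  have hH0 : (0 : ℝ) < H := by exact_mod_cast (show 0 < H by omega)
  set Q := vr5_Q H J with hQ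
  have h1 : ((∫ x in a..b, (fS H J t x - (J.card : ℝ) / H) ^ 2 : ℝ) : ℂ) =
      (1 / (H : ℂ) ^ 4) * ∑ p ∈ Q ×ˢ Q,
        ∫ x in a..b, vr5_e ((vr5_xi t p.1 - vr5_xi t p.2) * x) := by
    rw [← intervalIntegral.integral_ofReal]
    rw [← intervalIntegral.integral_finsetSum
      (fun p _ => (vr5_e_cont (vr5_xi t p.1 - vr5_xi t p.2)).intervalIntegrable a b),
      ← intervalIntegral.integral_const_mul]
    refine intervalIntegral.integral_congr fun x _ => ?_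
    exact vr5_sq H hH J t x
  have h2 : ∫ x in a..b, (fS H J t x - (J.card : ℝ) / H) ^ 2 ≤
      (1 / (H : ℝ) ^ 4) * ∑ p ∈ Q ×ˢ Q,
        ‖∫ x in a..b, vr5_e ((vr5_xi t p.1 - vr5_xi t p.2) * x)‖ := by
    calc ∫ x in a..b, (fS H J t x - (J.card : ℝ) / H) ^ 2
        ≤ ‖((∫ x in a..b, (fS H J t x - (J.card : ℝ) / H) ^ 2 : ℝ) : ℂ)‖ := by
          rw [Complex.norm_real]
          exact le_abs_self _
      _ = (1 / (H : ℝ) ^ 4) * ‖∑ p ∈ Q ×ˢ Q,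
            ∫ x in a..b, vr5_e ((vr5_xi t p.1 - vr5_xi t p.2) * x)‖ := by
          rw [h1, norm_mul]
          congr 1
          simp
      _ ≤ _ := mul_le_mul_of_nonneg_left (norm_sum_le _ _) (by positivity)
  set F := (Q ×ˢ Q).filter (fun p => |vr5_xi t p.1 - vr5_xi t p.2| ≤ r) with hF
  have h3 : ∑ p ∈ Q ×ˢ Q, ‖∫ x in a..b, vr5_e ((vr5_xi t p.1 - vr5_xi t p.2) * x)‖ ≤
      (F.card : ℝ) * (b - a) + ((J.card : ℝ) * H ^ 2) ^ 2 * (1 / r) := by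
    rw [← Finset.sum_filter_add_sum_filter_not (Q ×ˢ Q)
      (fun p => |vr5_xi t p.1 - vr5_xi t p.2| ≤ r)]
    refine add_le_add ?_ ?_
    · refine (Finset.sum_le_card_nsmul F _ (b - a) fun p _ => vr5_int1 _ a b hab).trans ?_
      rw [nsmul_eq_mul]
    · refine (Finset.sum_le_card_nsmul _ _ (1 / r) fun p hp => ?_).trans ?_
      · have h4 := (Finset.mem_filter.1 hp).2
        exact vr5_int2 _ a b r hr (not_le.1 h4)
      · rw [nsmul_eq_mul]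
        refine mul_le_mul_of_nonneg_right ?_ (by positivity)
        have h5 : ((Q ×ˢ Q).filter
            (fun p => ¬ |vr5_xi t p.1 - vr5_xi t p.2| ≤ r)).card ≤ (J.card * H ^ 2) ^ 2 := by
          refine (Finset.card_filter_le _ _).trans ?_
          rw [Finset.card_product, sq]
          exact Nat.mul_le_mul (vr5_cardQ H J) (vr5_cardQ H J)
        exact_mod_cast h5
  have h4 : (F.card : ℝ) ≤ (energy H J t r : ℝ) * (2 * (H * H)) := by
    have h5 := vr5_near H J t T r hT hrT hJ F (fun p hp => by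
      rw [hF, Finset.mem_filter, Finset.mem_product] at hp
      exact ⟨hp.1.1, hp.1.2, hp.2⟩)
    exact_mod_cast h5
  have h5 : (F.card : ℝ) * (b - a) ≤ (energy H J t r : ℝ) * (2 * (H * H)) * (b - a) :=
    mul_le_mul_of_nonneg_right h4 (by linarith)
  refine h2.trans ?_
  have h6 : (1 / (H : ℝ) ^ 4) * ∑ p ∈ Q ×ˢ Q,
        ‖∫ x in a..b, vr5_e ((vr5_xi t p.1 - vr5_xi t p.2) * x)‖ ≤
      (1 / (H : ℝ) ^ 4) * ((energy H J t r : ℝ) * (2 * (H * H)) * (b - a) +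
        ((J.card : ℝ) * H ^ 2) ^ 2 * (1 / r)) :=
    mul_le_mul_of_nonneg_left (h3.trans (by linarith)) (by positivity)
  refine h6.trans (le_of_eq ?_)
  field_simp


end Pool.Agent.Helper483.Lac
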