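import Mathlib
import Pool.Agent.Helper483.Lac.Base
import Pool.Agent.Helper483.Lac.Variance

set_option autoImplicit false

namespace Pool.Agent.Helper483.Lac

open MeasureTheory Finset


theorem cluster_measure (H : ℕ) (hH : 1 ≤ H) (J : Finset ℕ) (t : ℕ → ℝ) (T r : ℝ) (hT : 0 < T)
    (hr : 0 < r) (hrT : r < T) (hJ : ∀ j ∈ J, T ≤ t j) (M1 : ℕ) (hM1 : 1 ≤ M1)
    (hcard : J.card ≤ M1) (a b : ℝ) (hab : a ≤ b) :
    volume.real ({x | 2 * (M1 : ℝ) / H < fS H J t x} ∩ Set.Ico a b) ≤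
      2 * (energy H J t r : ℝ) * (b - a) / (M1 : ℝ) ^ 2 + (H : ℝ) ^ 2 / r := by
  have hfc : Continuous (fun x => fS H J t x) := by
    unfold fS
    exact continuous_finset_sum _ (fun j _ => (Phi_continuous H).comp (by fun_prop))
  have hHpos : (0 : ℝ) < H := by exact_mod_cast hH
  have hMpos : (0 : ℝ) < M1 := by exact_mod_cast hM1
  have hJM : (J.card : ℝ) ≤ M1 := by exact_mod_cast hcard
  have hJ0 : (0 : ℝ) ≤ J.card := by positivity
  set g : ℝ → ℝ := fun x => (fS H J t x - (J.card : ℝ) / H) ^ 2 with hg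
  have hgc : Continuous g := by rw [hg]; fun_prop
  set A : Set ℝ := {x | 2 * (M1 : ℝ) / H < fS H J t x} ∩ Set.Ico a b with hA
  have hAm : MeasurableSet A := by
    refine MeasurableSet.inter ?_ measurableSet_Ico
    exact (isOpen_lt continuous_const hfc).measurableSet
  have hAsub : A ⊆ Set.Ico a b := Set.inter_subset_right
  have hAfin : volume A ≠ ⊤ := by
    refine ne_top_of_le_ne_top ?_ (measure_mono hAsub)
    rw [Real.volume_Ico]; exact ENNReal.ofReal_ne_top
  have hgi : IntegrableOn g (Set.Ico a b) volume :=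
    (hgc.integrableOn_Icc (a := a) (b := b)).mono_set Set.Ico_subset_Icc_self
  have h1 : volume.real A * ((M1 : ℝ) / H) ^ 2 ≤ ∫ x in A, g x := by
    have : ∫ x in A, ((M1 : ℝ) / H) ^ 2 = volume.real A * ((M1 : ℝ) / H) ^ 2 := by
      rw [setIntegral_const, smul_eq_mul]
    rw [← this]
    refine setIntegral_mono_on ?_ (hgi.mono_set hAsub) hAm ?_
    · exact integrableOn_const hAfin
    · intro x hx
      have hx1 : 2 * (M1 : ℝ) / H < fS H J t x := hx.1
      have h2 : (J.card : ℝ) / H ≤ (M1 : ℝ) / H := by gcongr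
      have h3 : (M1 : ℝ) / H ≤ fS H J t x - (J.card : ℝ) / H := by
        have : 2 * (M1 : ℝ) / H = (M1 : ℝ) / H + (M1 : ℝ) / H := by ring
        linarith
      have h4 : (0 : ℝ) ≤ (M1 : ℝ) / H := by positivity
      exact pow_le_pow_left₀ h4 h3 2
  have h2 : ∫ x in A, g x ≤ ∫ x in Set.Ico a b, g x := by
    refine setIntegral_mono_set hgi ?_ (Filter.Eventually.of_forall hAsub)
    exact Filter.Eventually.of_forall (fun x => by simp only [Pi.zero_apply, hg]; positivity)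
  have h3 : ∫ x in Set.Ico a b, g x = ∫ x in a..b, g x := by
    rw [intervalIntegral.integral_of_le hab, integral_Ico_eq_integral_Ioo,
      integral_Ioc_eq_integral_Ioo]
  have h4 := variance H hH J t T r hT hr hrT hJ a b hab
  have h5 : volume.real A * ((M1 : ℝ) / H) ^ 2 ≤
      2 * (energy H J t r : ℝ) * (b - a) / (H : ℝ) ^ 2 + (J.card : ℝ) ^ 2 / r := by
    calc _ ≤ ∫ x in A, g x := h1
      _ ≤ _ := h2
      _ = _ := h3
      _ ≤ _ := h4
  have h6 : (J.card : ℝ) ^ 2 / r ≤ (M1 : ℝ) ^ 2 / r := by gcongr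
  have h7 : volume.real A * ((M1 : ℝ) / H) ^ 2 ≤
      (2 * (energy H J t r : ℝ) * (b - a) / (M1 : ℝ) ^ 2 + (H : ℝ) ^ 2 / r) *
        ((M1 : ℝ) / H) ^ 2 := by
    have e : (2 * (energy H J t r : ℝ) * (b - a) / (M1 : ℝ) ^ 2 + (H : ℝ) ^ 2 / r) *
        ((M1 : ℝ) / H) ^ 2 = 2 * (energy H J t r : ℝ) * (b - a) / (H : ℝ) ^ 2 +
          (M1 : ℝ) ^ 2 / r := by
      field_simp
    rw [e]; linarith
  exact le_of_mul_le_mul_right h7 (by positivity)


end Pool.Agent.Helper483.Lac
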