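import Mathlib
import Pool.Agent.Helper483.Lac.Defs

set_option autoImplicit false

namespace Pool.Agent.Helper483.Lac

open MeasureTheory Finset

/-- `M`-lacunary sequence of positive reals -/
def IsLac (M : ℝ) (t : ℕ → ℝ) : Prop := (∀ j, 0 < t j) ∧ ∀ j, 1 + 1 / M ≤ t (j + 1) / t j

/-- `δ({t_j})` -/
noncomputable def del (t : ℕ → ℝ) : ℝ := ⨆ α : ℝ, ⨅ j : ℕ, nd (α * t j)

/-- `F(M)` -/
noncomputable def F (M : ℝ) : ℝ := sInf {d | ∃ t : ℕ → ℝ, IsLac M t ∧ d = del t}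

end Pool.Agent.Helper483.Lac
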