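import Mathlib
import Pool.Agent.Helper483.Lac.Defs

set_option autoImplicit false

namespace Pool.Agent.Helper483.Lac

open MeasureTheory Finset


theorem trace_ineq_aux1 {ι : Type*} [Fintype ι] [DecidableEq ι] (B : Matrix ι ι ℝ)
    (hB : B.IsSymm) :
    (∑ i, ∑ k, B i k) ^ 2 ≤ (Fintype.card ι : ℝ) * ∑ i, ∑ k, (B * B) i k := by
  have h1 : ∑ i, ∑ k, (B * B) i k = ∑ l, (∑ k, B l k) ^ 2 := by
    have e1 : ∀ i k, (B * B) i k = ∑ l, B l i * B l k := by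
      intro i k
      rw [Matrix.mul_apply]
      refine Finset.sum_congr rfl fun l _ => ?_
      rw [hB.apply l i]
    simp_rw [e1]
    have e2 : ∀ i : ι, ∑ k, ∑ l, B l i * B l k = ∑ l, B l i * ∑ k, B l k := by
      intro i
      rw [Finset.sum_comm]
      exact Finset.sum_congr rfl fun l _ => (Finset.mul_sum _ _ _).symm
    simp_rw [e2]
    rw [Finset.sum_comm]
    refine Finset.sum_congr rfl fun l _ => ?_
    rw [← Finset.sum_mul, sq]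
  rw [h1]
  have := sq_sum_le_card_mul_sum_sq (s := (Finset.univ : Finset ι)) (f := fun l => ∑ k, B l k)
  simpa using this

theorem trace_ineq_aux2 {ι : Type*} [Fintype ι] [DecidableEq ι] (B : Matrix ι ι ℝ)
    (hB : B.IsSymm) :
    (∑ i, ∑ k, B i k) ^ 2 ≤ (Fintype.card ι : ℝ) ^ 2 * Matrix.trace (B * B) := by
  have h1 : Matrix.trace (B * B) = ∑ i, ∑ l, (B i l) ^ 2 := by
    unfold Matrix.trace
    refine Finset.sum_congr rfl fun i _ => ?_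
    rw [Matrix.diag_apply, Matrix.mul_apply]
    refine Finset.sum_congr rfl fun l _ => ?_
    rw [hB.apply i l, sq]
  have h2 : (∑ i, ∑ k, B i k) ^ 2 ≤ (Fintype.card ι : ℝ) * ∑ i, (∑ k, B i k) ^ 2 := by
    have := sq_sum_le_card_mul_sum_sq (s := (Finset.univ : Finset ι)) (f := fun l => ∑ k, B l k)
    simpa using this
  have h3 : ∑ i, (∑ k, B i k) ^ 2 ≤ ∑ i, (Fintype.card ι : ℝ) * ∑ k, (B i k) ^ 2 := by
    refine Finset.sum_le_sum fun i _ => ?_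
    have := sq_sum_le_card_mul_sum_sq (s := (Finset.univ : Finset ι)) (f := fun k => B i k)
    simpa using this
  rw [h1]
  calc (∑ i, ∑ k, B i k) ^ 2 ≤ (Fintype.card ι : ℝ) * ∑ i, (∑ k, B i k) ^ 2 := h2
    _ ≤ (Fintype.card ι : ℝ) * ∑ i, (Fintype.card ι : ℝ) * ∑ k, (B i k) ^ 2 :=
        mul_le_mul_of_nonneg_left h3 (by positivity)
    _ = _ := by rw [← Finset.mul_sum]; ring

theorem trace_ineq_aux3 {ι : Type*} [Fintype ι] [DecidableEq ι] (A : Matrix ι ι ℝ)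
    (hA : A.IsSymm) (hn : ∀ i j, 0 ≤ A i j) (hN : 0 < (Fintype.card ι : ℝ)) (e : ℕ) :
    (∑ i, ∑ k, A i k) ^ (2 ^ e) * (Fintype.card ι : ℝ) ≤
      (Fintype.card ι : ℝ) ^ (2 ^ e) * ∑ i, ∑ k, (A ^ (2 ^ e)) i k := by
  have hS : 0 ≤ ∑ i, ∑ k, A i k :=
    Finset.sum_nonneg fun i _ => Finset.sum_nonneg fun k _ => hn i k
  induction e with
  | zero => simp [mul_comm]
  | succ e ih =>
    have h1 := trace_ineq_aux1 (A ^ (2 ^ e)) (hA.pow _)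
    rw [← pow_two, ← pow_mul, ← pow_succ] at h1
    have h2 : ((∑ i, ∑ k, A i k) ^ (2 ^ e) * (Fintype.card ι : ℝ)) ^ 2 ≤
        ((Fintype.card ι : ℝ) ^ (2 ^ e) * ∑ i, ∑ k, (A ^ (2 ^ e)) i k) ^ 2 :=
      pow_le_pow_left₀ (by positivity) ih 2
    have h3 : ((Fintype.card ι : ℝ) ^ (2 ^ e)) ^ 2 * (∑ i, ∑ k, (A ^ (2 ^ e)) i k) ^ 2 ≤
        ((Fintype.card ι : ℝ) ^ (2 ^ e)) ^ 2 *
          ((Fintype.card ι : ℝ) * ∑ i, ∑ k, (A ^ (2 ^ (e + 1))) i k) :=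
      mul_le_mul_of_nonneg_left h1 (by positivity)
    have h4 : ((∑ i, ∑ k, A i k) ^ (2 ^ (e + 1)) * (Fintype.card ι : ℝ)) * (Fintype.card ι : ℝ) ≤
        ((Fintype.card ι : ℝ) ^ (2 ^ (e + 1)) * ∑ i, ∑ k, (A ^ (2 ^ (e + 1))) i k) *
          (Fintype.card ι : ℝ) := by
      rw [mul_pow, mul_pow] at h2
      have e1 : (∑ i, ∑ k, A i k) ^ (2 ^ (e + 1)) = ((∑ i, ∑ k, A i k) ^ (2 ^ e)) ^ 2 := by
        rw [← pow_mul, ← pow_succ]
      have e2 : (Fintype.card ι : ℝ) ^ (2 ^ (e + 1)) = ((Fintype.card ι : ℝ) ^ (2 ^ e)) ^ 2 := by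
        rw [← pow_mul, ← pow_succ]
      rw [e1, e2]
      linarith
    exact le_of_mul_le_mul_right h4 hN



theorem trace_ineq {ι : Type*} [Fintype ι] [DecidableEq ι] (A : Matrix ι ι ℝ) (hA : A.IsSymm)
    (hn : ∀ i j, 0 ≤ A i j) (j : ℕ) (hj : 1 ≤ j) :
    (∑ i, ∑ k, A i k) ^ (2 ^ j) ≤ (Fintype.card ι : ℝ) ^ (2 ^ j) * Matrix.trace (A ^ (2 ^ j)) := by
  obtain ⟨e, rfl⟩ : ∃ e, j = e + 1 := ⟨j - 1, by omega⟩
  rcases isEmpty_or_nonempty ι with hι | hι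
  · simp
  · have hN : 0 < (Fintype.card ι : ℝ) := by
      exact_mod_cast Fintype.card_pos
    have hS : 0 ≤ ∑ i, ∑ k, A i k :=
      Finset.sum_nonneg fun i _ => Finset.sum_nonneg fun k _ => hn i k
    have ih := trace_ineq_aux3 A hA hn hN e
    have h1 := trace_ineq_aux2 (A ^ (2 ^ e)) (hA.pow _)
    rw [← pow_two (A ^ 2 ^ e), ← pow_mul, ← pow_succ] at h1
    have h2 : ((∑ i, ∑ k, A i k) ^ (2 ^ e) * (Fintype.card ι : ℝ)) ^ 2 ≤
        ((Fintype.card ι : ℝ) ^ (2 ^ e) * ∑ i, ∑ k, (A ^ (2 ^ e)) i k) ^ 2 :=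
      pow_le_pow_left₀ (by positivity) ih 2
    have h3 : ((Fintype.card ι : ℝ) ^ (2 ^ e)) ^ 2 * (∑ i, ∑ k, (A ^ (2 ^ e)) i k) ^ 2 ≤
        ((Fintype.card ι : ℝ) ^ (2 ^ e)) ^ 2 *
          ((Fintype.card ι : ℝ) ^ 2 * Matrix.trace (A ^ (2 ^ (e + 1)))) :=
      mul_le_mul_of_nonneg_left h1 (by positivity)
    have e1 : (∑ i, ∑ k, A i k) ^ (2 ^ (e + 1)) = ((∑ i, ∑ k, A i k) ^ (2 ^ e)) ^ 2 := by
      rw [← pow_mul, ← pow_succ]
    have e2 : (Fintype.card ι : ℝ) ^ (2 ^ (e + 1)) = ((Fintype.card ι : ℝ) ^ (2 ^ e)) ^ 2 := by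
      rw [← pow_mul, ← pow_succ]
    have h4 : (∑ i, ∑ k, A i k) ^ (2 ^ (e + 1)) * (Fintype.card ι : ℝ) ^ 2 ≤
        ((Fintype.card ι : ℝ) ^ (2 ^ (e + 1)) * Matrix.trace (A ^ (2 ^ (e + 1)))) *
          (Fintype.card ι : ℝ) ^ 2 := by
      rw [mul_pow, mul_pow] at h2
      rw [e1, e2]
      linarith
    exact le_of_mul_le_mul_right h4 (by positivity)


end Pool.Agent.Helper483.Lac
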