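import Mathlib
import Pool.Agent.Helper483.Lac.Base
import Pool.Agent.Helper483.Lac.TraceIneq
import Pool.Agent.Helper483.Lac.ClosedWalk

set_option autoImplicit false

namespace Pool.Agent.Helper483.Lac

open MeasureTheory Finset


theorem energy_pow_aux (H : ℕ) (J : Finset ℕ) (t : ℕ → ℝ) (r : ℝ) :
    (energy H J t r : ℝ) = ∑ i : J, ∑ k : J, Amat H J t r i k := by
  classical
  unfold energy Amat
  have h1 : ∀ i : J, ∑ k : J, (((((Icc 1 (H - 1)) ×ˢ (Icc 1 (H - 1))).filter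
    (fun q : ℕ × ℕ => |(q.1 : ℝ) * t i - (q.2 : ℝ) * t k| ≤ r)).card : ℕ) : ℝ) =
      ∑ k ∈ J, (((((Icc 1 (H - 1)) ×ˢ (Icc 1 (H - 1))).filter
    (fun q : ℕ × ℕ => |(q.1 : ℝ) * t i - (q.2 : ℝ) * t k| ≤ r)).card : ℕ) : ℝ) := by
    intro i
    exact Finset.sum_coe_sort J (fun k => (((((Icc 1 (H - 1)) ×ˢ (Icc 1 (H - 1))).filter
      (fun q : ℕ × ℕ => |(q.1 : ℝ) * t i - (q.2 : ℝ) * t k| ≤ r)).card : ℕ) : ℝ))
  have h2 : ∑ i : J, ∑ k : J, (((((Icc 1 (H - 1)) ×ˢ (Icc 1 (H - 1))).filter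
    (fun q : ℕ × ℕ => |(q.1 : ℝ) * t i - (q.2 : ℝ) * t k| ≤ r)).card : ℕ) : ℝ) =
      ∑ i ∈ J, ∑ k ∈ J, (((((Icc 1 (H - 1)) ×ˢ (Icc 1 (H - 1))).filter
    (fun q : ℕ × ℕ => |(q.1 : ℝ) * t i - (q.2 : ℝ) * t k| ≤ r)).card : ℕ) : ℝ) := by
    rw [Finset.sum_congr rfl (fun i _ => h1 i)]
    exact Finset.sum_coe_sort J (fun i => ∑ k ∈ J, (((((Icc 1 (H - 1)) ×ˢ (Icc 1 (H - 1))).filter
      (fun q : ℕ × ℕ => |(q.1 : ℝ) * t i - (q.2 : ℝ) * t k| ≤ r)).card : ℕ) : ℝ))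
  have h3 : ((((J ×ˢ J ×ˢ Icc 1 (H - 1) ×ˢ Icc 1 (H - 1)).filter
    (fun q : ℕ × ℕ × ℕ × ℕ => |(q.2.2.1 : ℝ) * t q.1 - (q.2.2.2 : ℝ) * t q.2.1| ≤ r)).card : ℕ) : ℝ)
      = ∑ i ∈ J, ∑ k ∈ J, (((((Icc 1 (H - 1)) ×ˢ (Icc 1 (H - 1))).filter
    (fun q : ℕ × ℕ => |(q.1 : ℝ) * t i - (q.2 : ℝ) * t k| ≤ r)).card : ℕ) : ℝ) := by
    rw [Finset.card_filter, Finset.sum_product]
    push_cast
    refine Finset.sum_congr rfl fun i _ => ?_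
    rw [Finset.sum_product]
    refine Finset.sum_congr rfl fun k _ => ?_
    rw [Finset.card_filter]
    push_cast
    rfl
  rw [h3, ← h2]

theorem energy_pow_symm (H : ℕ) (J : Finset ℕ) (t : ℕ → ℝ) (r : ℝ) :
    (Amat H J t r).IsSymm := by
  classical
  ext i k
  rw [Matrix.transpose_apply]
  unfold Amat
  norm_cast
  refine Finset.card_bij (fun q _ => (q.2, q.1)) ?_ ?_ ?_
  · intro q hq
    rw [Finset.mem_filter, Finset.mem_product] at hq ⊢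
    refine ⟨⟨hq.1.2, hq.1.1⟩, ?_⟩
    have := hq.2
    rw [abs_sub_comm] at this
    exact this
  · intro a _ b _ hab
    have h1 : a.2 = b.2 := congrArg Prod.fst hab
    have h2 : a.1 = b.1 := congrArg Prod.snd hab
    exact Prod.ext h2 h1
  · intro b hb
    refine ⟨(b.2, b.1), ?_, rfl⟩
    rw [Finset.mem_filter, Finset.mem_product] at hb ⊢
    refine ⟨⟨hb.1.2, hb.1.1⟩, ?_⟩
    have := hb.2
    rw [abs_sub_comm] at this
    exact this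

theorem energy_pow (H j : ℕ) (hj : 1 ≤ j) (J : Finset ℕ) (t : ℕ → ℝ) (T r : ℝ) (hT : 0 < T)
    (hr : 0 ≤ r) (hrT : r ≤ T) (hJ : ∀ j ∈ J, T ≤ t j ∧ t j < 2 * T)
    (hsep : ∀ j ∈ J, ∀ j' ∈ J, j ≠ j' → 2 * r < |t j - t j'|)
    (hex : (3 : ℝ) ^ (2 ^ j) * r * (H : ℝ) ^ (2 ^ j) < T) :
    (energy H J t r : ℝ) ^ (2 ^ j) ≤ (J.card : ℝ) ^ (2 ^ j + 1) * (Rm H (2 ^ j) : ℝ) := by
  classical
  have hnn : ∀ i k : J, 0 ≤ Amat H J t r i k := by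
    intro i k
    unfold Amat
    positivity
  have key := trace_ineq (Amat H J t r) (energy_pow_symm H J t r) hnn j hj
  rw [← energy_pow_aux, Fintype.card_coe] at key
  have htr : Matrix.trace ((Amat H J t r) ^ (2 ^ j)) ≤ (J.card : ℝ) * (Rm H (2 ^ j) : ℝ) := by
    unfold Matrix.trace
    calc ∑ i, Matrix.diag ((Amat H J t r) ^ (2 ^ j)) i
        ≤ ∑ _i : J, (Rm H (2 ^ j) : ℝ) := by
          refine Finset.sum_le_sum fun i _ => ?_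
          rw [Matrix.diag_apply]
          exact closed_walk H (2 ^ j) J t T r hT hr hrT hJ hsep hex i
      _ = (J.card : ℝ) * (Rm H (2 ^ j) : ℝ) := by
          rw [Finset.sum_const, Finset.card_univ, Fintype.card_coe, nsmul_eq_mul]
  calc (energy H J t r : ℝ) ^ (2 ^ j)
      ≤ (J.card : ℝ) ^ (2 ^ j) * Matrix.trace ((Amat H J t r) ^ (2 ^ j)) := key
    _ ≤ (J.card : ℝ) ^ (2 ^ j) * ((J.card : ℝ) * (Rm H (2 ^ j) : ℝ)) :=
        mul_le_mul_of_nonneg_left htr (by positivity)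
    _ = (J.card : ℝ) ^ (2 ^ j + 1) * (Rm H (2 ^ j) : ℝ) := by ring


end Pool.Agent.Helper483.Lac
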