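import Mathlib
import Pool.Agent.Helper483.Lac.Defs

set_option autoImplicit false

namespace Pool.Agent.Helper483.Lac

open MeasureTheory Finset

theorem em_aux (n : ℕ) : ∀ (a : ℕ) (l : Fin n → ℕ), a ∣ ∏ j, l j →
    ∃ e : Fin n → ℕ, a = ∏ j, e j ∧ ∀ j, e j ∣ l j := by
  induction n with
  | zero =>
    intro a l h
    refine ⟨fun j => j.elim0, ?_, fun j => j.elim0⟩
    simp only [Finset.univ_eq_empty, Finset.prod_empty] at h ⊢
    exact Nat.dvd_one.1 h
  | succ n ih =>
    intro a l h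
    rw [Fin.prod_univ_succ] at h
    obtain ⟨a1, a2, h1, h2, h3⟩ := exists_dvd_and_dvd_of_dvd_mul h
    obtain ⟨e, he1, he2⟩ := ih a2 _ h2
    refine ⟨Fin.cons a1 e, ?_, ?_⟩
    · rw [Fin.prod_univ_succ, h3, he1]
      simp
    · intro j
      refine Fin.cases ?_ ?_ j
      · simpa using h1
      · intro i; simpa using he2 i

theorem exists_matrix (m n : ℕ) (k : Fin m → ℕ) (l : Fin n → ℕ) (hk : ∀ i, 1 ≤ k i)
    (hl : ∀ i, 1 ≤ l i) (h : ∏ i, k i = ∏ i, l i) :
    ∃ d : Fin m → Fin n → ℕ, (∀ i, k i = ∏ j, d i j) ∧ ∀ j, l j = ∏ i, d i j := by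
  induction m generalizing l with
  | zero =>
    refine ⟨fun i => i.elim0, fun i => i.elim0, ?_⟩
    intro j
    simp only [Finset.univ_eq_empty, Finset.prod_empty] at h ⊢
    have h1 : l j ∣ ∏ i, l i := Finset.dvd_prod_of_mem l (Finset.mem_univ j)
    rw [← h] at h1
    exact Nat.dvd_one.1 h1
  | succ m ih =>
    rw [Fin.prod_univ_succ] at h
    obtain ⟨e, he1, he2⟩ := em_aux n (k 0) l ⟨_, h.symm⟩
    have hepos : ∀ j, 1 ≤ e j := fun j => Nat.pos_of_dvd_of_pos (he2 j) (hl j)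
    have hl' : ∀ j, e j * (l j / e j) = l j := fun j => Nat.mul_div_cancel' (he2 j)
    have h1 : ∏ i, k (Fin.succ i) = ∏ j, l j / e j := by
      have h2 : k 0 * ∏ i, k (Fin.succ i) = k 0 * ∏ j, l j / e j := by
        rw [h]
        conv_rhs => rw [he1]
        rw [← Finset.prod_mul_distrib]
        exact Finset.prod_congr rfl fun j _ => (hl' j).symm
      exact Nat.eq_of_mul_eq_mul_left (hk 0) h2
    obtain ⟨d, hd1, hd2⟩ := ih (fun i => k (Fin.succ i)) (fun j => l j / e j)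
      (fun i => hk _) (fun j => Nat.div_pos (Nat.le_of_dvd (hl j) (he2 j)) (hepos j)) h1
    refine ⟨Fin.cons e d, ?_, ?_⟩
    · intro i
      refine Fin.cases ?_ ?_ i
      · simpa using he1
      · intro i; simpa using hd1 i
    · intro j
      rw [Fin.prod_univ_succ]
      simp only [Fin.cons_zero, Fin.cons_succ]
      rw [← hd2 j]
      exact (hl' j).symm


end Pool.Agent.Helper483.Lac
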