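import Mathlib
import Pool.Agent.Helper483.Lac.Defs
import Pool.Agent.Helper483.Lac.ExistsMatrix

set_option autoImplicit false

namespace Pool.Agent.Helper483.Lac

open MeasureTheory Finset


theorem Rm_le (H m : ℕ) : Rm H m ≤ (Tm H m) ^ m := by
  classical
  unfold Rm Tm
  obtain ⟨A, hA⟩ : ∃ A, A = (((Fintype.piFinset (fun _ : Fin m => Icc 1 (H - 1))) ×ˢ
    (Fintype.piFinset (fun _ : Fin m => Icc 1 (H - 1)))).filter
    (fun q => ∏ i, q.1 i = ∏ i, q.2 i)) := ⟨_, rfl⟩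
  obtain ⟨S, hS⟩ : ∃ S, S = ((Fintype.piFinset (fun _ : Fin m => Icc 1 (H - 1))).filter
    (fun d => ∏ i, d i < H)) := ⟨_, rfl⟩
  rw [← hA, ← hS]
  have hmemA : ∀ q, q ∈ A ↔ ((∀ i, 1 ≤ q.1 i ∧ q.1 i ≤ H - 1) ∧ (∀ i, 1 ≤ q.2 i ∧ q.2 i ≤ H - 1)) ∧
      ∏ i, q.1 i = ∏ i, q.2 i := by
    intro q
    rw [hA]
    simp only [mem_filter, mem_product, Fintype.mem_piFinset, mem_Icc]
  have hmemS : ∀ d, d ∈ S ↔ (∀ i, 1 ≤ d i ∧ d i ≤ H - 1) ∧ ∏ i, d i < H := by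
    intro d
    rw [hS]
    simp only [mem_filter, Fintype.mem_piFinset, mem_Icc]
  have key : ∀ q : (Fin m → ℕ) × (Fin m → ℕ), ∃ d : Fin m → Fin m → ℕ, q ∈ A →
      (∀ i, q.1 i = ∏ j, d i j) ∧ ∀ j, q.2 j = ∏ i, d i j := by
    intro q
    by_cases hq : q ∈ A
    · obtain ⟨⟨h1, h2⟩, h3⟩ := (hmemA q).1 hq
      obtain ⟨d, hd⟩ := exists_matrix m m q.1 q.2 (fun i => (h1 i).1) (fun i => (h2 i).1) h3
      exact ⟨d, fun _ => hd⟩
    · exact ⟨fun _ _ => 0, fun h => absurd h hq⟩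
  choose D hD using key
  have hcard : (Fintype.piFinset (fun _ : Fin m => S)).card = S.card ^ m := by
    rw [Fintype.card_piFinset, prod_const, card_univ, Fintype.card_fin]
  rw [← hcard]
  refine card_le_card_of_injOn D ?_ ?_
  · intro q hq
    have hq' : q ∈ A := hq
    obtain ⟨⟨h1, h2⟩, h3⟩ := (hmemA q).1 hq'
    obtain ⟨h4, h5⟩ := hD q hq'
    show D q ∈ Fintype.piFinset (fun _ : Fin m => S)
    rw [Fintype.mem_piFinset]
    intro i
    rw [hmemS]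
    have h6 := h1 i
    refine ⟨fun j => ?_, by rw [← h4 i]; omega⟩
    have h7 : D q i j ∣ q.1 i := by
      rw [h4 i]
      exact dvd_prod_of_mem _ (mem_univ j)
    have h8 : D q i j ≤ q.1 i := Nat.le_of_dvd (by omega) h7
    refine ⟨?_, by omega⟩
    rcases Nat.eq_zero_or_pos (D q i j) with h9 | h9
    · rw [h9, zero_dvd_iff] at h7
      omega
    · exact h9
  · intro q hq q' hq' he
    obtain ⟨h4, h5⟩ := hD q hq
    obtain ⟨h4', h5'⟩ := hD q' hq'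
    refine Prod.ext ?_ ?_
    · funext i
      rw [h4 i, h4' i, he]
    · funext j
      rw [h5 j, h5' j, he]


end Pool.Agent.Helper483.Lac
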