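import Mathlib
import Pool.Agent.Helper483.Lac.Defs

set_option autoImplicit false

namespace Pool.Agent.Helper483.Lac

open MeasureTheory Finset


/-- number of tuples with product at most `X` -/
def cntX (N m X : ℕ) : ℕ :=
  ((Fintype.piFinset (fun _ : Fin m => Icc 1 N)).filter (fun d => ∏ i, d i ≤ X)).card

theorem cntX_succ (N m X : ℕ) : cntX N (m + 1) X ≤ ∑ a ∈ Icc 1 N, cntX N m (X / a) := by
  classical
  unfold cntX
  have h1 : ∀ d ∈ ((Fintype.piFinset (fun _ : Fin (m + 1) => Icc 1 N)).filter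
      (fun d => ∏ i, d i ≤ X)), (fun d : Fin (m + 1) → ℕ => d 0) d ∈ Icc 1 N := by
    intro d hd
    rw [Finset.mem_filter, Fintype.mem_piFinset] at hd
    exact hd.1 0
  rw [Finset.card_eq_sum_card_fiberwise h1]
  refine Finset.sum_le_sum fun a ha => ?_
  refine Finset.card_le_card_of_injOn (fun d : Fin (m + 1) → ℕ => Fin.tail d) ?_ ?_
  · intro d hd
    simp only [Finset.coe_filter, Set.mem_setOf_eq, Finset.mem_filter, Fintype.mem_piFinset] at hd ⊢
    obtain ⟨⟨h2, h3⟩, h4⟩ := hd
    refine ⟨fun i => h2 _, ?_⟩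
    rw [Fin.prod_univ_succ, h4] at h3
    rw [Finset.mem_Icc] at ha
    rw [Nat.le_div_iff_mul_le (by omega)]
    rw [mul_comm]
    exact h3
  · intro d hd e he h
    simp only [Finset.coe_filter, Set.mem_setOf_eq, Finset.mem_filter, Fintype.mem_piFinset] at hd he
    have h5 : Fin.tail d = Fin.tail e := h
    funext i
    refine Fin.cases ?_ (fun j => ?_) i
    · rw [hd.2, he.2]
    · exact congrFun h5 j

theorem cntX_zero (N X : ℕ) : cntX N 0 X ≤ if 1 ≤ X then 1 else 0 := by
  classical
  unfold cntX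
  split_ifs with h
  · refine (Finset.card_filter_le _ _).trans ?_
    simp
  · have : X = 0 := by omega
    subst this
    simp

theorem cntX_le (N k : ℕ) : ∀ X : ℕ, (cntX N (k + 1) X : ℝ) ≤ X * (1 + Real.log X) ^ k := by
  induction k with
  | zero =>
    intro X
    rw [pow_zero, mul_one, Nat.cast_le]
    refine (cntX_succ N 0 X).trans ?_
    refine (Finset.sum_le_sum fun a _ => cntX_zero N (X / a)).trans ?_
    rw [← Finset.card_filter]
    calc ((Icc 1 N).filter (fun a => 1 ≤ X / a)).card ≤ (Icc 1 X).card := by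
          refine Finset.card_le_card fun a ha => ?_
          rw [Finset.mem_filter, Finset.mem_Icc] at ha
          rw [Finset.mem_Icc]
          refine ⟨ha.1.1, ?_⟩
          have := (Nat.le_div_iff_mul_le (by omega : 0 < a)).1 ha.2
          omega
      _ = X := by simp
  | succ k ih =>
    intro X
    rcases Nat.eq_zero_or_pos X with rfl | hX
    · have h0 : cntX N (k + 1 + 1) 0 = 0 := by
        unfold cntX
        rw [Finset.card_eq_zero, Finset.filter_eq_empty_iff]
        intro d hd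
        rw [Fintype.mem_piFinset] at hd
        have : 0 < ∏ i, d i := Finset.prod_pos fun i _ => by
          have := Finset.mem_Icc.1 (hd i)
          omega
        omega
      rw [h0]; simp
    have hX1 : (1 : ℝ) ≤ X := by exact_mod_cast hX
    have hlogX : 0 ≤ Real.log X := Real.log_nonneg hX1
    have h1 : (cntX N (k + 1 + 1) X : ℝ) ≤ ∑ a ∈ Icc 1 N, (cntX N (k + 1) (X / a) : ℝ) := by
      exact_mod_cast cntX_succ N (k + 1) X
    have h2 : ∀ a ∈ Icc 1 N, (cntX N (k + 1) (X / a) : ℝ) ≤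
        if a ≤ X then (X : ℝ) * (1 + Real.log X) ^ k * (a : ℝ)⁻¹ else 0 := by
      intro a ha
      rw [Finset.mem_Icc] at ha
      refine (ih (X / a)).trans ?_
      have ha0 : (0 : ℝ) < a := by exact_mod_cast ha.1
      split_ifs with h
      · have h3 : 1 ≤ X / a := (Nat.le_div_iff_mul_le (by omega)).2 (by omega)
        have h4 : ((X / a : ℕ) : ℝ) ≤ X / a := Nat.cast_div_le
        have h5 : ((X / a : ℕ) : ℝ) ≤ X := by exact_mod_cast Nat.div_le_self X a
        have h6 : (1 : ℝ) ≤ ((X / a : ℕ) : ℝ) := by exact_mod_cast h3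
        have h7 : Real.log ((X / a : ℕ) : ℝ) ≤ Real.log X := Real.log_le_log (by linarith) h5
        have h8 : 0 ≤ Real.log ((X / a : ℕ) : ℝ) := Real.log_nonneg h6
        calc ((X / a : ℕ) : ℝ) * (1 + Real.log ((X / a : ℕ) : ℝ)) ^ k
            ≤ (X / a) * (1 + Real.log X) ^ k := by
              gcongr
          _ = _ := by field_simp
      · have h3 : X / a = 0 := Nat.div_eq_of_lt (by omega)
        rw [h3]; simp
    calc (cntX N (k + 1 + 1) X : ℝ) ≤ ∑ a ∈ Icc 1 N,
          (if a ≤ X then (X : ℝ) * (1 + Real.log X) ^ k * (a : ℝ)⁻¹ else 0) :=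
          h1.trans (Finset.sum_le_sum h2)
      _ = ∑ a ∈ (Icc 1 N).filter (fun a => a ≤ X), (X : ℝ) * (1 + Real.log X) ^ k * (a : ℝ)⁻¹ := by
          rw [Finset.sum_filter]
      _ ≤ ∑ a ∈ Icc 1 X, (X : ℝ) * (1 + Real.log X) ^ k * (a : ℝ)⁻¹ := by
          refine Finset.sum_le_sum_of_subset_of_nonneg ?_ ?_
          · intro a ha
            rw [Finset.mem_filter, Finset.mem_Icc] at ha
            rw [Finset.mem_Icc]
            exact ⟨ha.1.1, ha.2⟩
          · intro a _ _
            positivity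
      _ = (X : ℝ) * (1 + Real.log X) ^ k * ((harmonic X : ℚ) : ℝ) := by
          rw [← Finset.mul_sum, harmonic_eq_sum_Icc]
          push_cast
          rfl
      _ ≤ (X : ℝ) * (1 + Real.log X) ^ k * (1 + Real.log X) := by
          gcongr
          exact harmonic_le_one_add_log X
      _ = _ := by ring

theorem Tm_le (H m : ℕ) (hH : 1 ≤ H) (hm : 1 ≤ m) :
    (Tm H m : ℝ) ≤ H * (1 + Real.log H) ^ (m - 1) := by
  obtain ⟨k, rfl⟩ : ∃ k, m = k + 1 := ⟨m - 1, by omega⟩
  have h1 : Tm H (k + 1) ≤ cntX (H - 1) (k + 1) H := by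
    unfold Tm cntX
    refine Finset.card_le_card fun d hd => ?_
    rw [Finset.mem_filter] at hd ⊢
    exact ⟨hd.1, hd.2.le⟩
  calc (Tm H (k + 1) : ℝ) ≤ cntX (H - 1) (k + 1) H := by exact_mod_cast h1
    _ ≤ _ := by
      rw [Nat.add_sub_cancel]
      exact cntX_le (H - 1) k H


end Pool.Agent.Helper483.Lac
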