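import Mathlib
import Pool.Agent.Helper483.Lac.Defs2
import Pool.Agent.Helper483.Lac.Base
import Pool.Agent.Helper483.Lac.EnergyPow
import Pool.Agent.Helper483.Lac.RmLe
import Pool.Agent.Helper483.Lac.TmLe

set_option autoImplicit false

namespace Pool.Agent.Helper483.Lac

open MeasureTheory Finset


/-- energy bound with the final parameters -/
theorem energy_le (j l h : ℕ) (hj : 5 ≤ j) (h1 : 8 ^ j ≤ l) (h2 : l < 8 ^ (j + 1))
    (hh : h = l - 12 * 4 ^ j) (J : Finset ℕ) (t : ℕ → ℝ) (T r : ℝ) (hT : 0 < T)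
    (hr : r = T / 2 ^ ((h + 2) * 2 ^ j + 2)) (hcard : J.card ≤ 2 ^ (l + 1))
    (hJ : ∀ i ∈ J, T ≤ t i ∧ t i < 2 * T)
    (hsep : ∀ i ∈ J, ∀ i' ∈ J, i ≠ i' → T / 2 ^ l ≤ |t i - t i'|) :
    (energy (2 ^ h) J t r : ℝ) ≤
      2 ^ (l + 1 + (8 * 4 ^ j + 1)) * ((2 ^ h : ℕ) : ℝ) *
        (1 + Real.log ((2 ^ h : ℕ) : ℝ)) ^ (2 ^ j - 1) := by
  have e8 : (8 : ℕ) ^ j = 2 ^ j * 4 ^ j := by rw [← mul_pow]; norm_num
  have e8' : (8 : ℕ) ^ (j + 1) = 8 * (2 ^ j * 4 ^ j) := by rw [pow_succ, e8]; ring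
  have hm32 : 32 ≤ 2 ^ j := by
    calc 32 = 2 ^ 5 := by norm_num
      _ ≤ 2 ^ j := Nat.pow_le_pow_right (by norm_num) hj
  obtain ⟨m, hm⟩ : ∃ m, m = 2 ^ j := ⟨_, rfl⟩
  obtain ⟨w, hw⟩ : ∃ w, w = 4 ^ j := ⟨_, rfl⟩
  have hE := energy_pow (2 ^ h) j (by omega) J t T r hT (by rw [hr]; positivity)
  rw [← hm] at e8 e8' hm32 hr hE ⊢
  rw [← hw] at e8 e8' hh ⊢
  have hwl : 32 * w ≤ l := by
    have : 32 * w ≤ m * w := Nat.mul_le_mul_right _ hm32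
    omega
  have hh2 : l ≤ 2 * h := by omega
  have hexp : l + 1 < (h + 2) * m + 2 := by
    have : (h + 2) * 32 ≤ (h + 2) * m := Nat.mul_le_mul_left _ hm32
    omega
  have hr0 : r ≤ T := by
    rw [hr]
    apply div_le_self hT.le
    exact one_le_pow₀ (by norm_num)
  have h2r : 2 * r < T / 2 ^ l := by
    rw [hr]
    have e1 : 2 * (T / 2 ^ ((h + 2) * m + 2)) = T / 2 ^ ((h + 2) * m + 1) := by
      rw [show (h + 2) * m + 2 = ((h + 2) * m + 1) + 1 from rfl, pow_succ]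
      field_simp
    rw [e1]
    apply div_lt_div_of_pos_left hT (by positivity)
    exact pow_lt_pow_right₀ (by norm_num) (by omega)
  have hex : (3 : ℝ) ^ m * r * ((2 ^ h : ℕ) : ℝ) ^ m < T := by
    have e1 : (3 : ℝ) ^ m * r * ((2 ^ h : ℕ) : ℝ) ^ m = T * ((3 / 4) ^ m / 4) := by
      rw [hr]
      have e2 : (2 : ℝ) ^ ((h + 2) * m + 2) = ((2 : ℝ) ^ h) ^ m * (4 : ℝ) ^ m * 4 := by
        rw [pow_add, add_mul, pow_add, ← pow_mul, pow_mul 2 2 m]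
        norm_num
      rw [e2]
      push_cast
      rw [div_pow]
      field_simp
    rw [e1]
    have e3 : ((3 : ℝ) / 4) ^ m ≤ 1 := pow_le_one₀ (by norm_num) (by norm_num)
    nlinarith
  have hE1 := hE hr0 hJ (fun i hi i' hi' hne => lt_of_lt_of_le h2r (hsep i hi i' hi' hne)) hex
  have hH1 : 1 ≤ 2 ^ h := Nat.one_le_two_pow
  have hlog : 0 ≤ Real.log ((2 ^ h : ℕ) : ℝ) := Real.log_natCast_nonneg _
  have hTm := Tm_le (2 ^ h) m hH1 (by omega)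
  have hRm : (Rm (2 ^ h) m : ℝ) ≤ (((2 ^ h : ℕ) : ℝ) *
      (1 + Real.log ((2 ^ h : ℕ) : ℝ)) ^ (m - 1)) ^ m := by
    calc (Rm (2 ^ h) m : ℝ) ≤ ((Tm (2 ^ h) m ^ m : ℕ) : ℝ) := by
          exact_mod_cast Rm_le (2 ^ h) m
      _ = (Tm (2 ^ h) m : ℝ) ^ m := by push_cast; rfl
      _ ≤ _ := pow_le_pow_left₀ (Nat.cast_nonneg _) hTm m
  have hm0 : m ≠ 0 := by omega
  rw [← pow_le_pow_iff_left₀ (Nat.cast_nonneg _) (by positivity) hm0]
  refine hE1.trans ?_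
  have hc1 : (J.card : ℝ) ^ (m + 1) ≤ ((2 : ℝ) ^ (l + 1 + (8 * w + 1))) ^ m := by
    have hc2 : (J.card : ℝ) ≤ (2 : ℝ) ^ (l + 1) := by exact_mod_cast hcard
    calc (J.card : ℝ) ^ (m + 1) ≤ ((2 : ℝ) ^ (l + 1)) ^ (m + 1) :=
          pow_le_pow_left₀ (Nat.cast_nonneg _) hc2 _
      _ = (2 : ℝ) ^ ((l + 1) * (m + 1)) := by rw [pow_mul]
      _ ≤ (2 : ℝ) ^ ((l + 1 + (8 * w + 1)) * m) := by
          apply pow_le_pow_right₀ (by norm_num)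
          have : l + 1 ≤ (8 * w + 1) * m := by
            have e : (8 * w + 1) * m = 8 * (m * w) + m := by ring
            rw [e]; omega
          calc (l + 1) * (m + 1) = (l + 1) * m + (l + 1) := by ring
            _ ≤ (l + 1) * m + (8 * w + 1) * m := by omega
            _ = (l + 1 + (8 * w + 1)) * m := by ring
      _ = _ := by rw [pow_mul]
  calc (J.card : ℝ) ^ (m + 1) * (Rm (2 ^ h) m : ℝ)
      ≤ ((2 : ℝ) ^ (l + 1 + (8 * w + 1))) ^ m * (((2 ^ h : ℕ) : ℝ) *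
      (1 + Real.log ((2 ^ h : ℕ) : ℝ)) ^ (m - 1)) ^ m :=
        mul_le_mul hc1 hRm (Nat.cast_nonneg _) (by positivity)
    _ = _ := by rw [← mul_pow, mul_assoc]



end Pool.Agent.Helper483.Lac
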