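import Mathlib
import Pool.Agent.Helper483.Lac.Defs2
import Pool.Agent.Helper483.Lac.Base
import Pool.Agent.Helper483.Lac.ClusterMeasure
import Pool.Agent.Helper483.Lac.EnergyLe

set_option autoImplicit false

namespace Pool.Agent.Helper483.Lac

open MeasureTheory Finset


theorem clm_P (j : ℕ) (hj : 5 ≤ j) : 6 * j + 2 ≤ 2 ^ j := by
  induction j, hj using Nat.le_induction with
  | base => norm_num
  | succ n hn ih => rw [pow_succ]; omega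

theorem clm_num (j : ℕ) (hj : 5 ≤ j) : 12 * 4 ^ j ≤ 8 ^ j ∧
    8 + 2 * j + (3 * j + 3) * (2 ^ j - 1) ≤ 3 * 4 ^ j ∧ 4 ^ j + 7 + 2 * j ≤ 8 ^ j := by
  have hP := clm_P j hj
  have h4 : 4 ^ j = 2 ^ j * 2 ^ j := by rw [← mul_pow]; norm_num
  have h8 : 8 ^ j = 2 ^ j * 2 ^ j * 2 ^ j := by rw [← mul_pow, ← mul_pow]; norm_num
  rw [h4, h8]
  generalize 2 ^ j = P at hP
  have hP1 : 32 ≤ P := by omega
  have hP2 : 32 * P ≤ P * P := Nat.mul_le_mul_right P hP1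
  have hP3 : 32 * (P * P) ≤ P * P * P := by
    rw [mul_comm 32]; exact Nat.mul_le_mul_left (P * P) hP1
  refine ⟨by omega, ?_, by omega⟩
  have h1 : (3 * j + 3) * (P - 1) ≤ (3 * j + 3) * P := Nat.mul_le_mul_left _ (Nat.sub_le _ _)
  have h2 : (6 * j + 2) * P ≤ P * P := Nat.mul_le_mul_right P hP
  have h3 : (3 * j + 3) * P + P ≤ (6 * j + 2) * P := by
    calc (3 * j + 3) * P + P = (3 * j + 4) * P := by ring
      _ ≤ (6 * j + 2) * P := Nat.mul_le_mul_right P (by omega)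
  omega

/-- measure of the cluster set with the final parameters -/
theorem cluster_le (j l h g : ℕ) (hj : 5 ≤ j) (h1 : 8 ^ j ≤ l) (h2 : l < 8 ^ (j + 1))
    (hh : h = l - 12 * 4 ^ j) (hg : g = (h + 2) * 2 ^ j + 2 * h + 2 + l)
    (J : Finset ℕ) (t : ℕ → ℝ) (i : ℕ) (hig : g ≤ i)
    (hcard : J.card ≤ 2 ^ (l + 1))
    (hJ : ∀ n ∈ J, (2 : ℝ) ^ i ≤ t n ∧ t n < 2 ^ (i + 1))
    (hsep : ∀ n ∈ J, ∀ n' ∈ J, n ≠ n' → (2 : ℝ) ^ i / 2 ^ l ≤ |t n - t n'|) (k : ℕ) :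
    volume.real ({x | 2 * ((2 ^ (l + 1) : ℕ) : ℝ) / ((2 ^ h : ℕ) : ℝ) < fS (2 ^ h) J t x} ∩
      Set.Ico ((k : ℝ) / 2 ^ (i - g)) (((k : ℝ) + 1) / 2 ^ (i - g))) ≤
      (1 / 2 ^ (4 ^ j + 6 + 2 * j)) / 2 ^ (i - g) := by
  obtain ⟨n1, n2, n3⟩ := clm_num j hj
  have hl : l = h + 12 * 4 ^ j := by omega
  set B : ℝ := 2 ^ (i - g) with hB
  have hBpos : 0 < B := by positivity
  set r : ℝ := 2 ^ i / 2 ^ ((h + 2) * 2 ^ j + 2) with hr
  have hrpos : 0 < r := by positivity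
  have hrT : r < (2 : ℝ) ^ i := by
    rw [hr, div_lt_iff₀ (by positivity)]
    have h3 : (1 : ℝ) < 2 ^ ((h + 2) * 2 ^ j + 2) := one_lt_pow₀ (by norm_num) (by omega)
    have h4 : (0 : ℝ) < 2 ^ i := by positivity
    nlinarith
  have hJ1 : ∀ n ∈ J, (2 : ℝ) ^ i ≤ t n ∧ t n < 2 * 2 ^ i := by
    intro n hn
    have := hJ n hn
    rw [pow_succ, mul_comm] at this
    exact this
  have hE := energy_le j l h hj h1 h2 hh J t (2 ^ i) r (by positivity) hr hcard hJ1 hsep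
  have hC := cluster_measure (2 ^ h) Nat.one_le_two_pow J t (2 ^ i) r (by positivity) hrpos hrT
    (fun n hn => (hJ n hn).1) (2 ^ (l + 1)) Nat.one_le_two_pow hcard
    ((k : ℝ) / B) (((k : ℝ) + 1) / B) (by gcongr; linarith)
  refine hC.trans ?_
  have hba : ((k : ℝ) + 1) / B - (k : ℝ) / B = 1 / B := by rw [← sub_div]; ring
  rw [hba]
  have hcast1 : (((2 ^ (l + 1) : ℕ)) : ℝ) = 2 ^ (l + 1) := by push_cast; ring
  have hcast2 : (((2 ^ h : ℕ)) : ℝ) = 2 ^ h := by push_cast; ring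
  rw [hcast1, hcast2]
  rw [hcast2] at hE
  -- the logarithm
  have hlog : 1 + Real.log ((2 : ℝ) ^ h) ≤ 2 ^ (3 * j + 3) := by
    rw [Real.log_pow]
    have h3 : Real.log 2 ≤ 1 := by
      have := Real.log_two_lt_d9
      linarith
    have h4 : (h : ℝ) * Real.log 2 ≤ h := by
      have : (0 : ℝ) ≤ h := Nat.cast_nonneg h
      nlinarith
    have h5 : h + 1 ≤ 8 ^ (j + 1) := by omega
    have h6 : (8 : ℕ) ^ (j + 1) = 2 ^ (3 * j + 3) := by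
      rw [show (8 : ℕ) = 2 ^ 3 by norm_num, ← pow_mul]; congr 1
    rw [h6] at h5
    have h7 : ((h : ℝ) + 1) ≤ 2 ^ (3 * j + 3) := by exact_mod_cast h5
    linarith
  have hlog0 : 0 ≤ 1 + Real.log ((2 : ℝ) ^ h) := by
    have : 0 ≤ Real.log ((2 : ℝ) ^ h) := Real.log_nonneg (one_le_pow₀ (by norm_num))
    linarith
  have hE2 : (energy (2 ^ h) J t r : ℝ) ≤
      2 ^ (l + 1 + (8 * 4 ^ j + 1) + h + (3 * j + 3) * (2 ^ j - 1)) := by
    refine hE.trans ?_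
    rw [pow_add _ (l + 1 + (8 * 4 ^ j + 1) + h), pow_add _ (l + 1 + (8 * 4 ^ j + 1)),
      pow_mul]
    exact mul_le_mul_of_nonneg_left (pow_le_pow_left₀ hlog0 hlog _) (by positivity)
  have hE3 : 2 * (energy (2 ^ h) J t r : ℝ) ≤ (2 ^ (l + 1)) ^ 2 / 2 ^ (4 ^ j + 7 + 2 * j) := by
    rw [le_div_iff₀ (by positivity)]
    calc 2 * (energy (2 ^ h) J t r : ℝ) * 2 ^ (4 ^ j + 7 + 2 * j)
        ≤ 2 * 2 ^ (l + 1 + (8 * 4 ^ j + 1) + h + (3 * j + 3) * (2 ^ j - 1)) *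
            2 ^ (4 ^ j + 7 + 2 * j) := by gcongr
      _ = 2 ^ (1 + (l + 1 + (8 * 4 ^ j + 1) + h + (3 * j + 3) * (2 ^ j - 1)) +
            (4 ^ j + 7 + 2 * j)) := by
          rw [pow_add (2 : ℝ) (1 + (l + 1 + (8 * 4 ^ j + 1) + h + (3 * j + 3) * (2 ^ j - 1))),
            pow_add (2 : ℝ) 1, pow_one]
      _ ≤ 2 ^ ((l + 1) * 2) := by
          apply pow_le_pow_right₀ (by norm_num)
          omega
      _ = (2 ^ (l + 1)) ^ 2 := by rw [pow_mul]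
  have hfirst : 2 * (energy (2 ^ h) J t r : ℝ) * (1 / B) / (2 ^ (l + 1)) ^ 2 ≤
      1 / 2 ^ (4 ^ j + 7 + 2 * j) / B := by
    have h3 : (0 : ℝ) < (2 ^ (l + 1)) ^ 2 := by positivity
    calc 2 * (energy (2 ^ h) J t r : ℝ) * (1 / B) / (2 ^ (l + 1)) ^ 2
        ≤ ((2 ^ (l + 1)) ^ 2 / 2 ^ (4 ^ j + 7 + 2 * j)) * (1 / B) / (2 ^ (l + 1)) ^ 2 := by
          gcongr
      _ = 1 / 2 ^ (4 ^ j + 7 + 2 * j) / B := by
          field_simp
  have hi : (2 : ℝ) ^ i = 2 ^ ((h + 2) * 2 ^ j + 2) * 2 ^ (2 * h) * 2 ^ l * B := by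
    rw [hB, ← pow_add, ← pow_add, ← pow_add]
    congr 1
    omega
  have hsecond : ((2 : ℝ) ^ h) ^ 2 / r ≤ 1 / 2 ^ (4 ^ j + 7 + 2 * j) / B := by
    have h3 : ((2 : ℝ) ^ h) ^ 2 / r = 1 / 2 ^ l / B := by
      rw [hr, hi]
      have h4 : ((2 : ℝ) ^ h) ^ 2 = 2 ^ (2 * h) := by rw [← pow_mul, mul_comm]
      rw [h4]
      field_simp
    rw [h3]
    have h5 : (2 : ℝ) ^ (4 ^ j + 7 + 2 * j) ≤ 2 ^ l :=
      pow_le_pow_right₀ (by norm_num) (by omega)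
    gcongr
  have hfin : (1 : ℝ) / 2 ^ (4 ^ j + 7 + 2 * j) / B + 1 / 2 ^ (4 ^ j + 7 + 2 * j) / B =
      1 / 2 ^ (4 ^ j + 6 + 2 * j) / B := by
    have h3 : (2 : ℝ) ^ (4 ^ j + 7 + 2 * j) = 2 ^ (4 ^ j + 6 + 2 * j) * 2 := by
      rw [← pow_succ]; congr 1; ring
    rw [h3]
    field_simp
    ring
  linarith


end Pool.Agent.Helper483.Lac
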