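import Mathlib
import Pool.Agent.Helper483.Lac.Base

set_option autoImplicit false

namespace Pool.Agent.Helper483.Lac

open MeasureTheory Finset


theorem Phi_ge_half (H : ℕ) (hH : 1 ≤ H) (y : ℝ) (hy : nd y ≤ 1 / (8 * (H : ℝ))) :
    1 / 2 ≤ Phi H y := by
  have hHr : (0 : ℝ) < H := by exact_mod_cast hH
  have hπ := Real.pi_pos
  have hre : ∀ h ∈ range H, √2 / 2 ≤
      (Complex.exp (2 * Real.pi * Complex.I * ((h : ℂ) * (y : ℂ)))).re := by
    intro h hh
    rw [Finset.mem_range] at hh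
    have hhr : (h : ℝ) ≤ H := by exact_mod_cast hh.le
    have e1 : (2 * Real.pi * Complex.I * ((h : ℂ) * (y : ℂ))) =
        ((2 * Real.pi * h * y : ℝ) : ℂ) * Complex.I := by
      push_cast; ring
    rw [e1, Complex.exp_ofReal_mul_I_re]
    have e2 : 2 * Real.pi * h * y = 2 * Real.pi * h * (y - round y) +
        (((h : ℤ) * round y : ℤ) : ℝ) * (2 * Real.pi) := by
      push_cast; ring
    rw [e2, Real.cos_add_int_mul_two_pi, ← Real.cos_abs, ← Real.cos_pi_div_four]
    apply Real.cos_le_cos_of_nonneg_of_le_pi (abs_nonneg _) (by linarith)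
    rw [abs_mul, abs_of_nonneg (by positivity : 0 ≤ 2 * Real.pi * (h : ℝ))]
    have hy' : |y - round y| ≤ 1 / (8 * (H : ℝ)) := hy
    calc 2 * Real.pi * (h : ℝ) * |y - round y|
        ≤ 2 * Real.pi * (H : ℝ) * (1 / (8 * (H : ℝ))) := by
          apply mul_le_mul _ hy' (abs_nonneg _) (by positivity)
          exact mul_le_mul_of_nonneg_left hhr (by positivity)
      _ = Real.pi / 4 := by field_simp; ring
  have hsum : (H : ℝ) * (√2 / 2) ≤
      ‖∑ h ∈ range H, Complex.exp (2 * Real.pi * Complex.I * ((h : ℂ) * (y : ℂ)))‖ := by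
    refine le_trans ?_ ((le_abs_self _).trans (Complex.abs_re_le_norm _))
    rw [Complex.re_sum]
    calc (H : ℝ) * (√2 / 2) = ∑ _h ∈ range H, (√2 / 2) := by
          rw [Finset.sum_const, Finset.card_range, nsmul_eq_mul]
      _ ≤ _ := Finset.sum_le_sum hre
  unfold Phi
  rw [le_div_iff₀ (by positivity)]
  have h2 : (√2 : ℝ) ^ 2 = 2 := Real.sq_sqrt (by norm_num)
  calc (1 : ℝ) / 2 * (H : ℝ) ^ 2 = ((H : ℝ) * (√2 / 2)) ^ 2 := by
        rw [mul_pow, div_pow, h2]; ring
    _ ≤ _ := pow_le_pow_left₀ (by positivity) hsum 2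


end Pool.Agent.Helper483.Lac
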