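import Mathlib
import Pool.Agent.Helper483.Lac.Base
import Pool.Agent.Helper483.Lac.PhiGeHalf

set_option autoImplicit false

namespace Pool.Agent.Helper483.Lac

open MeasureTheory Finset


theorem x16839_same (n m : ℕ) (x y : ℝ) (hnm : n ≤ m) (h : same m x y) : same n x y := by
  obtain ⟨d, rfl⟩ := Nat.exists_eq_add_of_le hnm
  unfold same at h ⊢
  have hd : (0 : ℝ) < 2 ^ d := by positivity
  have key : ∀ a b : ℝ, ⌊(2 : ℝ) ^ d * a⌋ = ⌊(2 : ℝ) ^ d * b⌋ → ⌊a⌋ ≤ ⌊b⌋ := by
    intro a b hab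
    by_contra hlt
    push Not at hlt
    have h1 : b < (⌊a⌋ : ℝ) := Int.floor_lt.mp hlt
    have h2 : (⌊a⌋ : ℝ) ≤ a := Int.floor_le a
    have h3 : ⌊(2 : ℝ) ^ d * b⌋ < (2 : ℤ) ^ d * ⌊a⌋ := by
      rw [Int.floor_lt]
      push_cast
      exact mul_lt_mul_of_pos_left h1 hd
    have h4 : (2 : ℤ) ^ d * ⌊a⌋ ≤ ⌊(2 : ℝ) ^ d * a⌋ := by
      rw [Int.le_floor]
      push_cast
      exact mul_le_mul_of_nonneg_left h2 hd.le
    omega
  have e : ∀ z : ℝ, (2 : ℝ) ^ (n + d) * z = 2 ^ d * (2 ^ n * z) := by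
    intro z; rw [pow_add]; ring
  rw [e, e] at h
  exact le_antisymm (key _ _ h) (key _ _ h.symm)

theorem x16839_nd (x y : ℝ) : nd y ≤ |y - x| + nd x := by
  unfold nd
  calc |y - round y| ≤ |y - round x| := round_le y (round x)
    _ = |(y - x) + (x - round x)| := by congr 1; ring
    _ ≤ |y - x| + |x - round x| := abs_add_le _ _

theorem x16839_round (x y : ℝ) (δ : ℝ) (hx : nd x < δ) (hy : nd y < δ) (h : |x - y| + 2 * δ ≤ 1) :
    |x - y| < 2 * δ := by
  unfold nd at hx hy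
  have h1 : |((round x - round y : ℤ) : ℝ)| < 1 := by
    have : ((round x - round y : ℤ) : ℝ) = (x - y) - (x - round x) + (y - round y) := by
      push_cast; ring
    rw [this]
    calc |(x - y) - (x - round x) + (y - round y)|
        ≤ |(x - y) - (x - round x)| + |y - round y| := abs_add_le _ _
      _ ≤ |x - y| + |x - round x| + |y - round y| := by
          have := abs_sub (x - y) (x - round x)
          linarith
      _ < |x - y| + δ + δ := by linarith
      _ ≤ 1 := by linarith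
  have h2 : round x - round y = 0 := by
    have h3 : |round x - round y| < 1 := by exact_mod_cast h1
    exact Int.abs_lt_one_iff.mp h3
  have h4 : (round x : ℝ) = round y := by
    have : round x = round y := by omega
    rw [this]
  have : x - y = (x - round x) - (y - round y) := by rw [h4]; ring
  rw [this]
  calc |(x - round x) - (y - round y)| ≤ |x - round x| + |y - round y| := abs_sub _ _
    _ < 2 * δ := by linarith

theorem kill_bound (H : ℕ) (J : ℕ → Finset ℕ) (t : ℕ → ℝ) (h s u i M1 : ℕ) (δ : ℝ)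
    (hH : H = 2 ^ h) (hs : s = h + 5) (hδ0 : 0 < δ) (hδ1 : δ ≤ 1 / (16 * (H : ℝ)))
    (hu : 1 / (2 : ℝ) ^ u ≤ δ) (hsu : s ≤ u)
    (hJ : ∀ j ∈ J i, (2 : ℝ) ^ i ≤ t j ∧ t j < 2 ^ (i + 1)) (k : ℕ) :
    volume.real (EE H J t s (2 * (M1 : ℝ) / H) u δ i ∩
      Set.Ico ((k : ℝ) / 2 ^ (i + s)) (((k : ℝ) + 1) / 2 ^ (i + s))) ≤
      (512 * (M1 : ℝ) * δ) / 2 ^ (i + s) := by
  classical
  have hHpos : (1 : ℝ) ≤ H := by
    rw [hH]; push_cast; exact one_le_pow₀ (by norm_num)
  have hH0 : (0 : ℝ) < H := by linarith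
  have h2s : (2 : ℝ) ^ s = 32 * H := by
    rw [hs, hH, pow_add]; push_cast; ring
  have h2i : (0 : ℝ) < 2 ^ i := by positivity
  have h2is : (0 : ℝ) < 2 ^ (i + s) := by positivity
  have hRHS : (512 * (M1 : ℝ) * δ) / 2 ^ (i + s) = (4 * M1 / H) * (4 * δ / 2 ^ i) := by
    rw [pow_add, h2s]
    field_simp
    ring
  have hRnn : 0 ≤ (512 * (M1 : ℝ) * δ) / 2 ^ (i + s) := by positivity
  set A : Set ℝ := EE H J t s (2 * (M1 : ℝ) / H) u δ i ∩
      Set.Ico ((k : ℝ) / 2 ^ (i + s)) (((k : ℝ) + 1) / 2 ^ (i + s)) with hA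
  have hfloor : ∀ x : ℝ, x ∈ Set.Ico ((k : ℝ) / 2 ^ (i + s)) (((k : ℝ) + 1) / 2 ^ (i + s)) ↔
      ⌊(2 : ℝ) ^ (i + s) * x⌋ = (k : ℤ) := by
    intro x
    rw [Int.floor_eq_iff, Set.mem_Ico, div_le_iff₀ h2is, lt_div_iff₀ h2is]
    push_cast
    rw [mul_comm x]
  by_cases hall : ∀ y ∈ Set.Ico ((k : ℝ) / 2 ^ (i + s)) (((k : ℝ) + 1) / 2 ^ (i + s)),
      2 * (M1 : ℝ) / H < fS H (J i) t y
  · have hempty : A = ∅ := by
      ext x
      simp only [Set.mem_empty_iff_false, iff_false]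
      rintro ⟨⟨hx01, hxG, _⟩, hxN⟩
      apply hxG
      refine ⟨hx01, fun y hy => hall y ?_⟩
      rw [hfloor] at hxN ⊢
      unfold same at hy
      rw [← hy]; exact hxN
    rw [hempty]
    simpa using hRnn
  · push Not at hall
    obtain ⟨y0, hy0N, hy0⟩ := hall
    set B : Finset ℕ := (J i).filter (fun j => 1 / 2 ≤ Phi H (t j * y0)) with hB
    have hBcard : (B.card : ℝ) ≤ 4 * M1 / H := by
      have h1 : (B.card : ℝ) * (1 / 2) ≤ fS H (J i) t y0 := by
        calc (B.card : ℝ) * (1 / 2) = ∑ _j ∈ B, (1 / 2 : ℝ) := by simp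
          _ ≤ ∑ j ∈ B, Phi H (t j * y0) :=
            Finset.sum_le_sum fun j hj => (Finset.mem_filter.mp hj).2
          _ ≤ ∑ j ∈ J i, Phi H (t j * y0) :=
            Finset.sum_le_sum_of_subset_of_nonneg (Finset.filter_subset _ _)
              fun j _ _ => Phi_nonneg H _
      have h2 : 4 * (M1 : ℝ) / H = 2 * (2 * M1 / H) := by ring
      rw [h2]
      linarith
    have hdist : ∀ y ∈ Set.Ico ((k : ℝ) / 2 ^ (i + s)) (((k : ℝ) + 1) / 2 ^ (i + s)),
        ∀ z ∈ Set.Ico ((k : ℝ) / 2 ^ (i + s)) (((k : ℝ) + 1) / 2 ^ (i + s)),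
        ∀ j ∈ J i, |t j * y - t j * z| ≤ 1 / (16 * H) := by
      intro y hy z hz j hj
      obtain ⟨ht1, ht2⟩ := hJ j hj
      have htpos : 0 < t j := lt_of_lt_of_le h2i ht1
      have hyz : |y - z| ≤ 1 / 2 ^ (i + s) := by
        rw [Set.mem_Ico] at hy hz
        have e : ((k : ℝ) + 1) / 2 ^ (i + s) = k / 2 ^ (i + s) + 1 / 2 ^ (i + s) := by ring
        rw [e] at hy hz
        rw [abs_le]
        constructor <;> linarith [hy.1, hy.2, hz.1, hz.2]
      rw [← mul_sub, abs_mul, abs_of_pos htpos]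
      calc t j * |y - z| ≤ 2 ^ (i + 1) * (1 / 2 ^ (i + s)) := by
            apply mul_le_mul ht2.le hyz (abs_nonneg _) (by positivity)
        _ = 1 / (16 * H) := by
            rw [pow_add, pow_add, h2s]
            field_simp
            ring
    have h16 : 1 / (16 * (H : ℝ)) ≤ 1 / 16 := by
      apply one_div_le_one_div_of_le (by norm_num)
      linarith
    set Aj : ℕ → Set ℝ := fun j => {x | ∃ y, same (i + u) x y ∧
      y ∈ Set.Ico ((k : ℝ) / 2 ^ (i + s)) (((k : ℝ) + 1) / 2 ^ (i + s)) ∧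
      nd (t j * y) < δ} with hAj
    have hsub : A ⊆ ⋃ j ∈ B, Aj j := by
      rintro x ⟨⟨hx01, hxG, y, hxy, j, hj, hnd⟩, hxN⟩
      have hyN : y ∈ Set.Ico ((k : ℝ) / 2 ^ (i + s)) (((k : ℝ) + 1) / 2 ^ (i + s)) := by
        have h1 := x16839_same (i + s) (i + u) x y (by omega) hxy
        rw [hfloor] at hxN ⊢
        unfold same at h1
        rw [← h1]; exact hxN
      have hnd0 : nd (t j * y0) ≤ 1 / (8 * (H : ℝ)) := by
        have h1 := x16839_nd (t j * y) (t j * y0)
        have h2 := hdist y0 hy0N y hyN j hj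
        have h3 : 1 / (8 * (H : ℝ)) = 1 / (16 * H) + 1 / (16 * H) := by
          field_simp
          norm_num
        rw [h3]
        linarith
      have hH1 : 1 ≤ H := by exact_mod_cast hHpos
      have hjB : j ∈ B := Finset.mem_filter.mpr ⟨hj, Phi_ge_half H hH1 _ hnd0⟩
      simp only [Set.mem_iUnion]
      exact ⟨j, hjB, y, hxy, hyN, hnd⟩
    have hvol : ∀ j ∈ B, volume (Aj j) ≤ ENNReal.ofReal (4 * δ / 2 ^ i) := by
      intro j hjB
      have hj : j ∈ J i := (Finset.mem_filter.mp hjB).1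
      obtain ⟨ht1, ht2⟩ := hJ j hj
      have htpos : 0 < t j := lt_of_lt_of_le h2i ht1
      refine (Real.volume_le_diam _).trans ?_
      apply Metric.ediam_le
      rintro x ⟨y, hxy, hyN, hy⟩ x' ⟨y', hxy', hyN', hy'⟩
      rw [edist_dist]
      apply ENNReal.ofReal_le_ofReal
      rw [Real.dist_eq]
      have hclose : ∀ a b : ℝ, same (i + u) a b → |a - b| ≤ δ / 2 ^ i := by
        intro a b hab
        unfold same at hab
        have hp : (0 : ℝ) < 2 ^ (i + u) := by positivity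
        have h1 := Int.abs_sub_lt_one_of_floor_eq_floor hab
        rw [← mul_sub, abs_mul, abs_of_pos hp] at h1
        have h2 : |a - b| ≤ 1 / 2 ^ (i + u) := by
          rw [le_div_iff₀ hp]
          linarith
        refine h2.trans ?_
        rw [pow_add, le_div_iff₀ h2i]
        have e : 1 / ((2 : ℝ) ^ i * 2 ^ u) * 2 ^ i = 1 / 2 ^ u := by field_simp
        rw [e]
        exact hu
      have h1 := hclose x y hxy
      have h2 := hclose x' y' hxy'
      have h3 : |y - y'| ≤ 2 * δ / 2 ^ i := by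
        have h4 := hdist y hyN y' hyN' j hj
        have h5 := x16839_round (t j * y) (t j * y') δ hy hy' (by linarith)
        rw [← mul_sub, abs_mul, abs_of_pos htpos] at h5
        rw [le_div_iff₀ h2i]
        have h6 : 2 ^ i * |y - y'| ≤ t j * |y - y'| :=
          mul_le_mul_of_nonneg_right ht1 (abs_nonneg _)
        linarith
      have h7 : x - x' = (x - y) + (y - y') - (x' - y') := by ring
      have h8 : |x - x'| ≤ |x - y| + |y - y'| + |x' - y'| := by
        rw [h7]
        calc |(x - y) + (y - y') - (x' - y')| ≤ |(x - y) + (y - y')| + |x' - y'| := abs_sub _ _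
          _ ≤ |x - y| + |y - y'| + |x' - y'| := by
            have := abs_add_le (x - y) (y - y')
            linarith
      have h9 : 4 * δ / 2 ^ i = δ / 2 ^ i + 2 * δ / 2 ^ i + δ / 2 ^ i := by ring
      rw [h9]
      linarith
    have hfin : volume A ≤ ENNReal.ofReal ((512 * (M1 : ℝ) * δ) / 2 ^ (i + s)) := by
      calc volume A ≤ volume (⋃ j ∈ B, Aj j) := measure_mono hsub
        _ ≤ ∑ j ∈ B, volume (Aj j) := measure_biUnion_finset_le B Aj
        _ ≤ ∑ _j ∈ B, ENNReal.ofReal (4 * δ / 2 ^ i) := Finset.sum_le_sum hvol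
        _ = ENNReal.ofReal (B.card * (4 * δ / 2 ^ i)) := by
            rw [Finset.sum_const, nsmul_eq_mul, ENNReal.ofReal_mul (by positivity),
              ENNReal.ofReal_natCast]
        _ ≤ ENNReal.ofReal ((512 * (M1 : ℝ) * δ) / 2 ^ (i + s)) := by
            apply ENNReal.ofReal_le_ofReal
            rw [hRHS]
            exact mul_le_mul_of_nonneg_right hBcard (by positivity)
    exact ENNReal.toReal_le_of_le_ofReal hRnn hfin


end Pool.Agent.Helper483.Lac
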