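import Mathlib
import Pool.Agent.Helper483.Lac.Defs

set_option autoImplicit false

namespace Pool.Agent.Helper483.Lac

open MeasureTheory Finset


theorem surv_mono {Ω : Type*} (G E : ℕ → Set Ω) {m n : ℕ} (h : m ≤ n) :
    surv G E n ⊆ surv G E m := fun _ hω k hk => hω k (lt_of_lt_of_le hk h)

theorem lll_step {Ω : Type*} [MeasurableSpace Ω] (μ : Measure Ω) [IsFiniteMeasure μ]
    (G E : ℕ → Set Ω) (hG : ∀ n, MeasurableSet (G n)) (hE : ∀ n, MeasurableSet (E n))
    (a b : ℕ) (p q x : ℝ) (hp : 0 ≤ p) (hq : 0 ≤ q) (hx0 : 0 ≤ x) (hx1 : x < 1)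
    (hGp : ∀ n, μ.real (G n ∩ surv G E (n - a)) ≤ p * μ.real (surv G E (n - a)))
    (hEq : ∀ n, μ.real (E n ∩ surv G E (n - b)) ≤ q * μ.real (surv G E (n - b)))
    (hsum : p / (1 - x) ^ a + q / (1 - x) ^ b ≤ x) (n : ℕ) :
    (1 - x) * μ.real (surv G E n) ≤ μ.real (surv G E (n + 1)) := by
  have hy : 0 < 1 - x := by linarith
  induction n using Nat.strong_induction_on with
  | _ n ih =>
    have key : ∀ c : ℕ, (1 - x) ^ c * μ.real (surv G E (n - c)) ≤ μ.real (surv G E n) := by
      intro c
      induction c with
      | zero => simp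
      | succ c ihc =>
        by_cases hc : c + 1 ≤ n
        · have h1 := ih (n - (c + 1)) (by omega)
          have e1 : n - (c + 1) + 1 = n - c := by omega
          rw [e1] at h1
          calc (1 - x) ^ (c + 1) * μ.real (surv G E (n - (c + 1)))
              = (1 - x) ^ c * ((1 - x) * μ.real (surv G E (n - (c + 1)))) := by ring
            _ ≤ (1 - x) ^ c * μ.real (surv G E (n - c)) :=
                mul_le_mul_of_nonneg_left h1 (by positivity)
            _ ≤ _ := ihc
        · have e1 : n - (c + 1) = n - c := by omega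
          rw [e1]
          calc (1 - x) ^ (c + 1) * μ.real (surv G E (n - c))
              = (1 - x) * ((1 - x) ^ c * μ.real (surv G E (n - c))) := by ring
            _ ≤ 1 * ((1 - x) ^ c * μ.real (surv G E (n - c))) :=
                mul_le_mul_of_nonneg_right (by linarith) (by positivity)
            _ ≤ _ := by rw [one_mul]; exact ihc
    have hG1 : μ.real (G n ∩ surv G E n) ≤ p / (1 - x) ^ a * μ.real (surv G E n) := by
      calc μ.real (G n ∩ surv G E n) ≤ μ.real (G n ∩ surv G E (n - a)) :=
            measureReal_mono (Set.inter_subset_inter_right _ (surv_mono G E (Nat.sub_le n a)))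
        _ ≤ p * μ.real (surv G E (n - a)) := hGp n
        _ = p / (1 - x) ^ a * ((1 - x) ^ a * μ.real (surv G E (n - a))) := by
            field_simp
        _ ≤ p / (1 - x) ^ a * μ.real (surv G E n) :=
            mul_le_mul_of_nonneg_left (key a) (by positivity)
    have hE1 : μ.real (E n ∩ surv G E n) ≤ q / (1 - x) ^ b * μ.real (surv G E n) := by
      calc μ.real (E n ∩ surv G E n) ≤ μ.real (E n ∩ surv G E (n - b)) :=
            measureReal_mono (Set.inter_subset_inter_right _ (surv_mono G E (Nat.sub_le n b)))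
        _ ≤ q * μ.real (surv G E (n - b)) := hEq n
        _ = q / (1 - x) ^ b * ((1 - x) ^ b * μ.real (surv G E (n - b))) := by
            field_simp
        _ ≤ q / (1 - x) ^ b * μ.real (surv G E n) :=
            mul_le_mul_of_nonneg_left (key b) (by positivity)
    have hcov : surv G E n ⊆ surv G E (n + 1) ∪ ((G n ∩ surv G E n) ∪ (E n ∩ surv G E n)) := by
      intro ω hω
      by_cases hg : ω ∈ G n
      · exact Or.inr (Or.inl ⟨hg, hω⟩)
      · by_cases he : ω ∈ E n
        · exact Or.inr (Or.inr ⟨he, hω⟩)
        · refine Or.inl (fun k hk => ?_)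
          rcases Nat.lt_succ_iff_lt_or_eq.1 hk with h | h
          · exact hω k h
          · rw [h]
            exact ⟨hg, he⟩
    have h1 : μ.real (surv G E n) ≤ μ.real (surv G E (n + 1))
        + (μ.real (G n ∩ surv G E n) + μ.real (E n ∩ surv G E n)) := by
      calc μ.real (surv G E n)
          ≤ μ.real (surv G E (n + 1) ∪ ((G n ∩ surv G E n) ∪ (E n ∩ surv G E n))) :=
            measureReal_mono hcov
        _ ≤ μ.real (surv G E (n + 1)) + μ.real ((G n ∩ surv G E n) ∪ (E n ∩ surv G E n)) :=
            measureReal_union_le _ _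
        _ ≤ _ := by
            have := measureReal_union_le (μ := μ) (G n ∩ surv G E n) (E n ∩ surv G E n)
            linarith
    have h2 : (p / (1 - x) ^ a + q / (1 - x) ^ b) * μ.real (surv G E n)
        ≤ x * μ.real (surv G E n) := mul_le_mul_of_nonneg_right hsum measureReal_nonneg
    rw [add_mul] at h2
    linarith


end Pool.Agent.Helper483.Lac
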