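import Mathlib
import Pool.Agent.Helper483.Lac.Defs

set_option autoImplicit false

namespace Pool.Agent.Helper483.Lac

open MeasureTheory Finset


theorem node_mem352 (n k : ℕ) (x : ℝ) :
    x ∈ Set.Ico ((k : ℝ) / 2 ^ n) (((k : ℝ) + 1) / 2 ^ n) ↔ ⌊(2 : ℝ) ^ n * x⌋ = (k : ℤ) := by
  have h2 : (0 : ℝ) < 2 ^ n := by positivity
  rw [Int.floor_eq_iff, Set.mem_Ico, div_le_iff₀ h2, lt_div_iff₀ h2]
  simp [mul_comm]

theorem node_mul (A D : Set ℝ) (hA : MeasurableSet A) (n : ℕ) (c : ℝ)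
    (hD : ∀ x y, same n x y → (x ∈ D ↔ y ∈ D))
    (h : ∀ k : ℕ, k < 2 ^ n →
      volume.real (A ∩ Set.Ico ((k : ℝ) / 2 ^ n) (((k : ℝ) + 1) / 2 ^ n)) ≤ c / 2 ^ n) :
    (volume.restrict (Set.Ico (0 : ℝ) 1)).real (A ∩ D) ≤
      c * (volume.restrict (Set.Ico (0 : ℝ) 1)).real D := by
  classical
  have h2 : (0 : ℝ) < 2 ^ n := by positivity
  obtain ⟨I, hI⟩ : ∃ I : ℕ → Set ℝ,
      I = fun k : ℕ => Set.Ico ((k : ℝ) / 2 ^ n) (((k : ℝ) + 1) / 2 ^ n) := ⟨_, rfl⟩
  have hIm : ∀ k x, x ∈ I k ↔ ⌊(2 : ℝ) ^ n * x⌋ = (k : ℤ) := by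
    intro k x
    rw [hI]
    exact node_mem352 n k x
  have hc : ∀ k : ℕ, (k : ℝ) / 2 ^ n ∈ I k := by
    intro k
    rw [hI]
    refine ⟨le_refl _, ?_⟩
    exact div_lt_div_of_pos_right (by linarith) h2
  have hDk : ∀ (k : ℕ) (x : ℝ), x ∈ I k → (x ∈ D ↔ (k : ℝ) / 2 ^ n ∈ D) := by
    intro k x hx
    apply hD
    unfold same
    rw [(hIm k x).1 hx, (hIm k _).1 (hc k)]
  obtain ⟨S, hS⟩ : ∃ S : Finset ℕ,
      S = (range (2 ^ n)).filter (fun k : ℕ => (k : ℝ) / 2 ^ n ∈ D) := ⟨_, rfl⟩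
  have hun : D ∩ Set.Ico (0 : ℝ) 1 = ⋃ k ∈ S, I k := by
    ext x
    simp only [Set.mem_inter_iff, Set.mem_iUnion, exists_prop]
    constructor
    · rintro ⟨hx, hx0, hx1⟩
      have hf0 : (0 : ℤ) ≤ ⌊(2 : ℝ) ^ n * x⌋ := Int.floor_nonneg.2 (by positivity)
      obtain ⟨k, hk⟩ := Int.eq_ofNat_of_zero_le hf0
      have hkI : x ∈ I k := (hIm k x).2 hk
      refine ⟨k, ?_, hkI⟩
      rw [hS, Finset.mem_filter, Finset.mem_range]
      refine ⟨?_, (hDk k x hkI).1 hx⟩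
      have h3 : ((k : ℤ) : ℝ) ≤ (2 : ℝ) ^ n * x := by
        rw [← hk]; exact Int.floor_le _
      have h4 : (k : ℝ) < (2 : ℝ) ^ n := by
        have : (2 : ℝ) ^ n * x < 2 ^ n * 1 := by
          exact mul_lt_mul_of_pos_left hx1 h2
        push_cast at h3
        linarith
      exact_mod_cast h4
    · rintro ⟨k, hkS, hxI⟩
      rw [hS, Finset.mem_filter, Finset.mem_range] at hkS
      refine ⟨(hDk k x hxI).2 hkS.2, ?_⟩
      rw [hI] at hxI
      obtain ⟨hx0, hx1⟩ := hxI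
      refine ⟨le_trans (by positivity) hx0, lt_of_lt_of_le hx1 ?_⟩
      rw [div_le_one h2]
      have : k + 1 ≤ 2 ^ n := hkS.1
      exact_mod_cast this
  have hdis : ∀ i j : ℕ, i ≠ j → Disjoint (I i) (I j) := by
    intro i j hij
    rw [Set.disjoint_left]
    intro x hx hy
    rw [hIm] at hx hy
    rw [hx] at hy
    exact hij (by exact_mod_cast hy)
  have hIvol : ∀ k, volume.real (I k) = 1 / 2 ^ n := by
    intro k
    rw [hI]
    simp only
    rw [Real.volume_real_Ico_of_le]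
    · field_simp
      ring
    · exact div_le_div_of_nonneg_right (by linarith) h2.le
  have hR : (volume.restrict (Set.Ico (0 : ℝ) 1)).real D = ∑ _k ∈ S, (1 / 2 ^ n : ℝ) := by
    rw [measureReal_def, Measure.restrict_apply' measurableSet_Ico, ← measureReal_def, hun,
      measureReal_biUnion_finset (h := fun k _ => by
        rw [hI]
        exact (measure_Ico_lt_top).ne)]
    · exact Finset.sum_congr rfl fun k _ => hIvol k
    · intro i _ j _ hij
      exact hdis i j hij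
    · intro k _
      rw [hI]
      exact measurableSet_Ico
  have hL : (volume.restrict (Set.Ico (0 : ℝ) 1)).real (A ∩ D) ≤ ∑ _k ∈ S, (c / 2 ^ n : ℝ) := by
    rw [measureReal_def, Measure.restrict_apply' measurableSet_Ico, ← measureReal_def,
      Set.inter_assoc, hun]
    have : A ∩ ⋃ k ∈ S, I k = ⋃ k ∈ S, (A ∩ I k) := by
      rw [Set.inter_iUnion₂]
    rw [this]
    refine (measureReal_biUnion_finset_le _ _).trans (Finset.sum_le_sum fun k hk => ?_)
    rw [hI]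
    apply h
    rw [hS, Finset.mem_filter, Finset.mem_range] at hk
    exact hk.1
  refine hL.trans (le_of_eq ?_)
  rw [hR, Finset.mul_sum]
  refine Finset.sum_congr rfl fun k _ => ?_
  ring


end Pool.Agent.Helper483.Lac
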