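import Mathlib
import Pool.Agent.Helper483.Lac.Base
import Pool.Agent.Helper483.Lac.LllStep
import Pool.Agent.Helper483.Lac.NodeMul
import Pool.Agent.Helper483.Lac.KillBound

set_option autoImplicit false

namespace Pool.Agent.Helper483.Lac

open MeasureTheory Finset


theorem same_refl (n : ℕ) (x : ℝ) : same n x x := rfl

theorem same_symm {n : ℕ} {x y : ℝ} (h : same n x y) : same n y x := h.symm

theorem same_trans {n : ℕ} {x y z : ℝ} (h : same n x y) (h' : same n y z) : same n x z := h.trans h'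

theorem floor_pow (m k : ℕ) (x : ℝ) : ⌊(2 : ℝ) ^ m * x⌋ = ⌊(2 : ℝ) ^ (m + k) * x⌋ / ((2 ^ k : ℕ) : ℤ) := by
  rw [← Int.floor_div_natCast]
  congr 1
  push_cast
  rw [pow_add]
  field_simp

theorem same_mono {m n : ℕ} (hmn : m ≤ n) {x y : ℝ} (h : same n x y) : same m x y := by
  obtain ⟨k, rfl⟩ := Nat.exists_eq_add_of_le hmn
  unfold same at *
  rw [floor_pow m k x, floor_pow m k y, h]

theorem same_Ico {n : ℕ} {x y : ℝ} (h : same n x y) (hx : x ∈ Set.Ico (0 : ℝ) 1) :
    y ∈ Set.Ico (0 : ℝ) 1 := by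
  have h0 := same_mono (Nat.zero_le n) h
  unfold same at h0
  simp only [pow_zero, one_mul] at h0
  have : ⌊x⌋ = 0 := Int.floor_eq_zero_iff.mpr hx
  rw [this] at h0
  exact Int.floor_eq_zero_iff.mp h0.symm

/-- invariance under `same n` -/
def Inv (n : ℕ) (D : Set ℝ) : Prop := ∀ x y, same n x y → (x ∈ D → y ∈ D)

theorem Inv.iff {n : ℕ} {D : Set ℝ} (h : Inv n D) : ∀ x y, same n x y → (x ∈ D ↔ y ∈ D) :=
  fun x y hxy => ⟨h x y hxy, h y x (same_symm hxy)⟩

theorem Inv.mono {m n : ℕ} (hmn : m ≤ n) {D : Set ℝ} (h : Inv m D) : Inv n D :=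
  fun x y hxy => h x y (same_mono hmn hxy)

theorem Inv.meas {n : ℕ} {D : Set ℝ} (h : Inv n D) : MeasurableSet D := by
  have : D = (fun x : ℝ => ⌊(2 : ℝ) ^ n * x⌋) ⁻¹' ((fun x : ℝ => ⌊(2 : ℝ) ^ n * x⌋) '' D) := by
    ext x
    constructor
    · intro hx
      exact ⟨x, hx, rfl⟩
    · rintro ⟨y, hy, hxy⟩
      exact h y x hxy hy
  rw [this]
  apply MeasurableSet.preimage (MeasurableSet.of_discrete)
  exact Int.measurable_floor.comp (measurable_const.mul measurable_id)

theorem inv_GG (H : ℕ) (J : ℕ → Finset ℕ) (t : ℕ → ℝ) (s : ℕ) (K : ℝ) (i : ℕ) :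
    Inv (i + s) (GG H J t s K i) := by
  rintro x y hxy ⟨h1, h2⟩
  exact ⟨same_Ico hxy h1, fun z hz => h2 z (same_trans hxy hz)⟩

theorem inv_EE (H : ℕ) (J : ℕ → Finset ℕ) (t : ℕ → ℝ) (s : ℕ) (K : ℝ) (u : ℕ) (hsu : s ≤ u) (δ : ℝ)
    (i : ℕ) : Inv (i + u) (EE H J t s K u δ i) := by
  rintro x y hxy ⟨h1, h2, z, hz, j, hj, hjz⟩
  refine ⟨same_Ico hxy h1, fun hy => h2 ?_, z, same_trans (same_symm hxy) hz, j, hj, hjz⟩
  exact (inv_GG H J t s K i).mono (by omega) y x (same_symm hxy) hy

theorem core (H : ℕ) (J : ℕ → Finset ℕ) (t : ℕ → ℝ) (h s u w g M1 : ℕ) (p δ x : ℝ)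
    (hH : H = 2 ^ h) (hs : s = h + 5) (hu' : u = s + w) (hw : 1 ≤ w) (hδ0 : 0 < δ)
    (hδ1 : δ ≤ 1 / (16 * (H : ℝ))) (hu : 1 / (2 : ℝ) ^ u ≤ δ) (hp : 0 ≤ p)
    (hJ : ∀ i, ∀ j ∈ J i, (2 : ℝ) ^ i ≤ t j ∧ t j < 2 ^ (i + 1))
    (hJ0 : ∀ i < g, J i = ∅)
    (hG : ∀ i, g ≤ i → ∀ k : ℕ, volume.real ({x | 2 * (M1 : ℝ) / H < fS H (J i) t x} ∩
      Set.Ico ((k : ℝ) / 2 ^ (i - g)) (((k : ℝ) + 1) / 2 ^ (i - g))) ≤ p / 2 ^ (i - g))
    (hx0 : 0 ≤ x) (hx1 : x < 1)
    (hsum : p / (1 - x) ^ (s + g - 1) + (512 * (M1 : ℝ) * δ) / (1 - x) ^ (w - 1) ≤ x) (N : ℕ) :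
    ∃ α ∈ Set.Ico (0 : ℝ) 1, ∀ i ≤ N, ∀ j ∈ J i, δ ≤ nd (t j * α) := by
  classical
  set K : ℝ := 2 * (M1 : ℝ) / H with hK
  have hK0 : 0 ≤ K := by positivity
  set G : ℕ → Set ℝ := fun n => if s ≤ n then GG H J t s K (n - s) else ∅ with hGdef
  set E : ℕ → Set ℝ := fun n => if u ≤ n then EE H J t s K u δ (n - u) else ∅ with hEdef
  set μ : Measure ℝ := volume.restrict (Set.Ico (0 : ℝ) 1) with hμ
  have hsu : s ≤ u := by omega
  have invG : ∀ n, Inv n (G n) := by
    intro n
    simp only [hGdef]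
    split_ifs with h1
    · have := inv_GG H J t s K (n - s)
      rwa [Nat.sub_add_cancel h1] at this
    · intro x y _ hx
      exact hx
  have invE : ∀ n, Inv n (E n) := by
    intro n
    simp only [hEdef]
    split_ifs with h1
    · have := inv_EE H J t s K u hsu δ (n - u)
      rwa [Nat.sub_add_cancel h1] at this
    · intro x y _ hx
      exact hx
  have invS : ∀ n, Inv n (surv G E (n + 1)) := by
    intro n x y hxy hx k hk
    have := hx k hk
    refine ⟨fun hy => this.1 ?_, fun hy => this.2 ?_⟩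
    · exact (invG k).mono (by omega) y x (same_symm hxy) hy
    · exact (invE k).mono (by omega) y x (same_symm hxy) hy
  have hGe : ∀ n, n < s + g → G n = ∅ := by
    intro n hn
    simp only [hGdef]
    split_ifs with h1
    · ext z
      simp only [Set.mem_empty_iff_false, iff_false]
      rintro ⟨_, h3⟩
      have := h3 z (same_refl _ _)
      rw [fS, hJ0 (n - s) (by omega), Finset.sum_empty] at this
      linarith
    · rfl
  have hstep : ∀ n, (1 - x) * μ.real (surv G E n) ≤ μ.real (surv G E (n + 1)) := by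
    intro n
    refine lll_step μ G E (fun n => (invG n).meas) (fun n => (invE n).meas) (s + g - 1) (w - 1) p
      (512 * (M1 : ℝ) * δ) x hp (by positivity) hx0 hx1 ?_ ?_ hsum n
    · intro n
      by_cases hn : n < s + g
      · rw [hGe n hn, Set.empty_inter, measureReal_empty]
        positivity
      · push Not at hn
        have e1 : n - (s + g - 1) = (n - s - g) + 1 := by omega
        rw [e1]
        refine node_mul (G n) _ (invG n).meas (n - s - g) p (invS _).iff ?_
        intro k _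
        refine le_trans ?_ (hG (n - s) (by omega) k)
        apply measureReal_mono
        · apply Set.inter_subset_inter_left
          intro z hz
          simp only [hGdef, if_pos (show s ≤ n by omega)] at hz
          exact hz.2 z (same_refl _ _)
        · refine (lt_of_le_of_lt (measure_mono Set.inter_subset_right) ?_).ne
          rw [Real.volume_Ico]
          exact ENNReal.ofReal_lt_top
    · intro n
      by_cases hn : n < u
      · simp only [hEdef, if_neg (show ¬ u ≤ n by omega), Set.empty_inter, measureReal_empty]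
        positivity
      · push Not at hn
        have e1 : n - (w - 1) = ((n - u) + s) + 1 := by omega
        rw [e1]
        refine node_mul (E n) _ (invE n).meas ((n - u) + s) _ (invS _).iff ?_
        intro k _
        have := kill_bound H J t h s u (n - u) M1 δ hH hs hδ0 hδ1 hu hsu (hJ (n - u)) k
        simp only [hEdef, if_pos hn]
        exact this
  have hpos : ∀ n, 0 < μ.real (surv G E n) := by
    intro n
    induction n with
    | zero =>
      have : surv G E 0 = Set.univ := by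
        ext z
        simp [surv]
      rw [this]
      simp [hμ, Measure.real]
    | succ n ih =>
      refine lt_of_lt_of_le ?_ (hstep n)
      exact mul_pos (by linarith) ih
  have h1 := hpos (N + u + 1)
  have h2 : (surv G E (N + u + 1) ∩ Set.Ico (0 : ℝ) 1).Nonempty := by
    by_contra hne
    rw [Set.not_nonempty_iff_eq_empty] at hne
    rw [hμ, Measure.real, Measure.restrict_apply ((invS (N + u)).meas), hne] at h1
    simp at h1
  obtain ⟨α, hα1, hα2⟩ := h2
  refine ⟨α, hα2, fun i hi j hj => ?_⟩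
  by_contra hlt
  push Not at hlt
  have hg := (hα1 (i + s) (by omega)).1
  have he := (hα1 (i + u) (by omega)).2
  simp only [hGdef, if_pos (show s ≤ i + s by omega), Nat.add_sub_cancel] at hg
  simp only [hEdef, if_pos (show u ≤ i + u by omega), Nat.add_sub_cancel] at he
  exact he ⟨hα2, hg, α, same_refl _ _, j, hj, hlt⟩


end Pool.Agent.Helper483.Lac
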