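import Mathlib
import Pool.Agent.Helper483.Lac.Defs2

set_option autoImplicit false

namespace Pool.Agent.Helper483.Lac

open MeasureTheory Finset


theorem exists_blocks (l g : ℕ) (t : ℕ → ℝ) (ht : IsLac ((2 : ℝ) ^ l) t) (h0 : (2 : ℝ) ^ g ≤ t 0) :
    ∃ J : ℕ → Finset ℕ, (∀ i n, n ∈ J i ↔ ((2 : ℝ) ^ i ≤ t n ∧ t n < 2 ^ (i + 1))) ∧
      (∀ i < g, J i = ∅) ∧ (∀ i, (J i).card ≤ 2 ^ (l + 1)) ∧
      (∀ i, ∀ n ∈ J i, ∀ n' ∈ J i, n ≠ n' → (2 : ℝ) ^ i / 2 ^ l ≤ |t n - t n'|) ∧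
      ∀ n, ∃ i, n ∈ J i := by
  classical
  obtain ⟨hpos, hlac⟩ := ht
  have h2l : (0 : ℝ) < 2 ^ l := by positivity
  have hstep : ∀ n, t n + t n / 2 ^ l ≤ t (n + 1) := by
    intro n
    have h1 := hlac n
    rw [le_div_iff₀ (hpos n)] at h1
    calc t n + t n / 2 ^ l = (1 + 1 / 2 ^ l) * t n := by ring
      _ ≤ t (n + 1) := h1
  have hmono : Monotone t := by
    apply monotone_nat_of_le_succ
    intro n
    have := hstep n
    have h2 : 0 ≤ t n / 2 ^ l := (div_pos (hpos n) h2l).le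
    linarith
  have hlin : ∀ n d : ℕ, t n + d * (t n / 2 ^ l) ≤ t (n + d) := by
    intro n d
    induction d with
    | zero => simp
    | succ d ih =>
      have h1 := hstep (n + d)
      have h2 : t n / 2 ^ l ≤ t (n + d) / 2 ^ l :=
        div_le_div_of_nonneg_right (hmono (Nat.le_add_right n d)) h2l.le
      have e : n + (d + 1) = n + d + 1 := by ring
      rw [e]
      push_cast
      linarith
  have hg1 : (1 : ℝ) ≤ 2 ^ g := one_le_pow₀ (by norm_num)
  have hunb : ∀ i : ℕ, ∃ N : ℕ, (2 : ℝ) ^ (i + 1) ≤ t N := by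
    intro i
    obtain ⟨N, hN⟩ := exists_nat_gt ((2 : ℝ) ^ (i + 1) * 2 ^ l)
    refine ⟨N, ?_⟩
    have h1 := hlin 0 N
    rw [zero_add] at h1
    have h2 : 1 / 2 ^ l ≤ t 0 / 2 ^ l := div_le_div_of_nonneg_right (hg1.trans h0) h2l.le
    have h3 : (N : ℝ) * (1 / 2 ^ l) ≤ N * (t 0 / 2 ^ l) :=
      mul_le_mul_of_nonneg_left h2 (Nat.cast_nonneg N)
    have h4 : (2 : ℝ) ^ (i + 1) ≤ N * (1 / 2 ^ l) := by
      rw [mul_one_div, le_div_iff₀ h2l]
      exact hN.le
    have h5 := hpos 0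
    linarith
  choose N hN using hunb
  have hJ : ∀ i n, n ∈ (Finset.range (N i)).filter (fun n => (2 : ℝ) ^ i ≤ t n ∧ t n < 2 ^ (i + 1))
      ↔ ((2 : ℝ) ^ i ≤ t n ∧ t n < 2 ^ (i + 1)) := by
    intro i n
    rw [Finset.mem_filter, Finset.mem_range]
    constructor
    · exact fun h => h.2
    · intro h
      refine ⟨?_, h⟩
      by_contra hcon
      have := hmono (not_lt.1 hcon)
      have h2 := hN i
      linarith [h.2]
  refine ⟨fun i => (Finset.range (N i)).filter (fun n => (2 : ℝ) ^ i ≤ t n ∧ t n < 2 ^ (i + 1)),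
    hJ, ?_, ?_, ?_, ?_⟩
  · intro i hi
    apply Finset.eq_empty_of_forall_notMem
    intro n hn
    rw [hJ] at hn
    have h1 : (2 : ℝ) ^ (i + 1) ≤ 2 ^ g := pow_le_pow_right₀ (by norm_num) hi
    have h2 := hmono (Nat.zero_le n)
    linarith [hn.2]
  · intro i
    rcases Finset.eq_empty_or_nonempty ((Finset.range (N i)).filter
      (fun n => (2 : ℝ) ^ i ≤ t n ∧ t n < 2 ^ (i + 1))) with he | hne
    · show ((Finset.range (N i)).filter (fun n => (2 : ℝ) ^ i ≤ t n ∧ t n < 2 ^ (i + 1))).card ≤ _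
      rw [he]; simp
    · set n0 := Finset.min' _ hne with hn0
      have hn0m := Finset.min'_mem _ hne
      rw [← hn0, hJ] at hn0m
      have hsub : (Finset.range (N i)).filter (fun n => (2 : ℝ) ^ i ≤ t n ∧ t n < 2 ^ (i + 1))
          ⊆ Finset.Ico n0 (n0 + 2 ^ l) := by
        intro n hn
        have h1 : n0 ≤ n := Finset.min'_le _ n hn
        rw [hJ] at hn
        rw [Finset.mem_Ico]
        refine ⟨h1, ?_⟩
        obtain ⟨d, rfl⟩ := Nat.exists_eq_add_of_le h1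
        have h2 := hlin n0 d
        have h3 : (d : ℝ) * (2 ^ i / 2 ^ l) ≤ d * (t n0 / 2 ^ l) :=
          mul_le_mul_of_nonneg_left (div_le_div_of_nonneg_right hn0m.1 h2l.le) (Nat.cast_nonneg d)
        have h4 : (d : ℝ) * (2 ^ i / 2 ^ l) < 2 ^ i := by
          have h5 : (2 : ℝ) ^ (i + 1) = 2 ^ i + 2 ^ i := by ring
          linarith [hn.2, hn0m.1]
        have h6 : (d : ℝ) < 2 ^ l := by
          have h7 : (0 : ℝ) < 2 ^ i := by positivity
          have h8 : (d : ℝ) * (2 ^ i / 2 ^ l) = (d * 2 ^ i) / 2 ^ l := by ring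
          rw [h8, div_lt_iff₀ h2l] at h4
          nlinarith
        have h9 : d < 2 ^ l := by exact_mod_cast h6
        omega
      calc _ ≤ (Finset.Ico n0 (n0 + 2 ^ l)).card := Finset.card_le_card hsub
        _ = 2 ^ l := by rw [Nat.card_Ico, Nat.add_sub_cancel_left]
        _ ≤ 2 ^ (l + 1) := Nat.pow_le_pow_right (by norm_num) (Nat.le_succ l)
  · have hlt : ∀ i, ∀ n n' : ℕ, (2 : ℝ) ^ i ≤ t n → n < n' → (2 : ℝ) ^ i / 2 ^ l ≤ t n' - t n := by
      intro i n n' h hlt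
      have h1 := hstep n
      have h2 := hmono (Nat.succ_le_of_lt hlt)
      have h3 : (2 : ℝ) ^ i / 2 ^ l ≤ t n / 2 ^ l := div_le_div_of_nonneg_right h h2l.le
      have h4 : t (n + 1) ≤ t n' := h2
      linarith
    intro i n hn n' hn' hne
    rw [hJ] at hn hn'
    rcases lt_or_gt_of_ne hne with h | h
    · have := hlt i n n' hn.1 h
      rw [abs_sub_comm]
      exact this.trans (le_abs_self _)
    · have := hlt i n' n hn'.1 h
      exact this.trans (le_abs_self _)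
  · intro n
    have h1 : (1 : ℝ) ≤ t n := hg1.trans (h0.trans (hmono (Nat.zero_le n)))
    obtain ⟨i, hi1, hi2⟩ := exists_nat_pow_near h1 (by norm_num : (1 : ℝ) < 2)
    exact ⟨i, (hJ i n).2 ⟨hi1, hi2⟩⟩


end Pool.Agent.Helper483.Lac
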