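import Mathlib
import Pool.Agent.Helper483.Lac.Defs2

set_option autoImplicit false

namespace Pool.Agent.Helper483.Lac

open MeasureTheory Finset


theorem F_ge (M d : ℝ) (hM : 0 < M) (h : ∀ t : ℕ → ℝ, IsLac M t → ∃ α : ℝ, ∀ n, d ≤ nd (α * t n)) :
    d ≤ F M := by
  have hnn : ∀ x, 0 ≤ nd x := fun x => abs_nonneg _
  have hhalf : ∀ x, nd x ≤ 1 / 2 := fun x => abs_sub_round x
  apply le_csInf
  · refine ⟨del (fun j => (1 + 1 / M) ^ j), fun j => (1 + 1 / M) ^ j, ⟨?_, ?_⟩, rfl⟩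
    · intro j
      positivity
    · intro j
      have : (0:ℝ) < (1 + 1 / M) ^ j := by positivity
      show 1 + 1 / M ≤ (1 + 1 / M) ^ (j + 1) / (1 + 1 / M) ^ j
      rw [pow_succ, mul_comm, mul_div_assoc, div_self this.ne', mul_one]
  · rintro b ⟨t, ht, rfl⟩
    obtain ⟨α, hα⟩ := h t ht
    have hb : ∀ α : ℝ, BddBelow (Set.range fun j : ℕ => nd (α * t j)) := by
      intro α
      exact ⟨0, by rintro _ ⟨j, rfl⟩; exact hnn _⟩
    have h1 : d ≤ ⨅ j : ℕ, nd (α * t j) := le_ciInf hα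
    have h2 : (⨅ j : ℕ, nd (α * t j)) ≤ del t := by
      unfold del
      refine le_ciSup (f := fun α : ℝ => ⨅ j : ℕ, nd (α * t j)) ?_ α
      refine ⟨1 / 2, ?_⟩
      rintro _ ⟨a, rfl⟩
      exact (ciInf_le (hb a) 0).trans (hhalf _)
    exact h1.trans h2


end Pool.Agent.Helper483.Lac
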