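import Mathlib
import Pool.Agent.Helper483.Lac.Defs2

set_option autoImplicit false

namespace Pool.Agent.Helper483.Lac

open MeasureTheory Finset


theorem nd_continuous : Continuous nd := by
  have h : nd = fun x : ℝ => ‖(x : UnitAddCircle)‖ := by
    funext x
    rw [UnitAddCircle.norm_eq]
    rfl
  rw [h]
  exact continuous_norm.comp (AddCircle.continuous_mk' (1 : ℝ))

theorem compact_pt (t : ℕ → ℝ) (δ : ℝ)
    (h : ∀ N, ∃ α ∈ Set.Ico (0 : ℝ) 1, ∀ n < N, δ ≤ nd (t n * α)) :
    ∃ α, ∀ n, δ ≤ nd (t n * α) := by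
  let C : ℕ → Set ℝ := fun N => Set.Icc (0 : ℝ) 1 ∩ ⋂ n, ⋂ (_ : n < N), {α | δ ≤ nd (t n * α)}
  have hcl : ∀ n, IsClosed {α : ℝ | δ ≤ nd (t n * α)} := fun n =>
    isClosed_le continuous_const (nd_continuous.comp (continuous_const.mul continuous_id))
  have hC : ∀ N, IsClosed (C N) := fun N =>
    isClosed_Icc.inter (isClosed_iInter fun n => isClosed_iInter fun _ => hcl n)
  have h1 : (⋂ N, C N).Nonempty := by
    refine IsCompact.nonempty_iInter_of_sequence_nonempty_isCompact_isClosed C ?_ ?_ ?_ hC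
    · intro N x hx
      refine ⟨hx.1, ?_⟩
      simp only [Set.mem_iInter] at *
      intro n hn
      have := hx.2
      simp only [Set.mem_iInter] at this
      exact this n (by omega)
    · intro N
      obtain ⟨α, hα, hh⟩ := h N
      refine ⟨α, ⟨hα.1, hα.2.le⟩, ?_⟩
      simp only [Set.mem_iInter]
      intro n hn
      exact hh n hn
    · exact isCompact_Icc.inter_right (isClosed_iInter fun n => isClosed_iInter fun _ => hcl n)
  obtain ⟨α, hα⟩ := h1
  refine ⟨α, fun n => ?_⟩
  have h2 := Set.mem_iInter.1 hα (n + 1)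
  have h3 := h2.2
  simp only [Set.mem_iInter] at h3
  exact h3 n (by omega)


end Pool.Agent.Helper483.Lac
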