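import Mathlib
import Pool.Agent.Helper483.Lac.Defs2

set_option autoImplicit false

namespace Pool.Agent.Helper483.Lac

open MeasureTheory Finset
theorem ps_nat (j l h s g : ℕ) (hj : 5 ≤ j) (h2 : l < 8 ^ (j + 1))
    (hh : h = l - 12 * 4 ^ j) (hg : g = (h + 2) * 2 ^ j + 2 * h + 2 + l) (hs : s = h + 5) :
    s + g - 1 ≤ 16 * 4 ^ j * 4 ^ j := by
  have e4 : (4 : ℕ) ^ j = (2 ^ j) ^ 2 := by rw [← pow_mul, mul_comm, pow_mul]; norm_num
  have e8 : (8 : ℕ) ^ (j + 1) = 8 * (2 ^ j) ^ 3 := by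
    rw [pow_succ, ← pow_mul, mul_comm j 3, pow_mul]; norm_num; ring
  have hA : 32 ≤ 2 ^ j := by
    calc 32 = 2 ^ 5 := by norm_num
      _ ≤ 2 ^ j := Nat.pow_le_pow_right (by norm_num) hj
  have hhl : h ≤ l := by omega
  rw [e8] at h2
  rw [e4]
  generalize 2 ^ j = A at *
  have h3 : h ≤ 8 * A ^ 3 := by omega
  have h4 : (h + 2) * A ≤ (8 * A ^ 3 + 2) * A := Nat.mul_le_mul_right _ (by omega)
  have h5 : (8 * A ^ 3 + 2) * A = 8 * A ^ 4 + 2 * A := by ring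
  have h6 : A ^ 3 * 32 ≤ A ^ 3 * A := Nat.mul_le_mul_left _ hA
  have h7 : A ^ 3 * A = A ^ 4 := by ring
  have h8 : A ≤ A ^ 4 := Nat.le_self_pow (by norm_num) A
  have h9 : 16 * A ^ 2 * A ^ 2 = 16 * A ^ 4 := by ring
  omega



/-- the numerical condition of the local lemma -/
theorem param_sum (j l h s g w : ℕ) (hj : 5 ≤ j) (h1 : 8 ^ j ≤ l) (h2 : l < 8 ^ (j + 1))
    (hh : h = l - 12 * 4 ^ j) (hg : g = (h + 2) * 2 ^ j + 2 * h + 2 + l) (hs : s = h + 5)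
    (hw : w = 16 * 4 ^ j) :
    (1 / 2 ^ (4 ^ j + 6 + 2 * j)) / (1 - 1 / (2 * (w : ℝ))) ^ (s + g - 1) +
      (512 * ((2 ^ (l + 1) : ℕ) : ℝ) * (1 / (2 ^ (l + 17) * 4 ^ j))) /
        (1 - 1 / (2 * (w : ℝ))) ^ (w - 1) ≤ 1 / (2 * (w : ℝ)) := by
  have hnat : s + g - 1 ≤ w * 4 ^ j := by
    rw [hw]; exact ps_nat j l h s g hj h2 hh hg hs
  have h4pos : (0 : ℝ) < 4 ^ j := by positivity
  have h4one : (1 : ℝ) ≤ 4 ^ j := one_le_pow₀ (by norm_num)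
  have hwR : (w : ℝ) = 16 * 4 ^ j := by rw [hw]; push_cast; ring
  have hwpos : (0 : ℝ) < w := by rw [hwR]; positivity
  have hx0 : 0 < 1 / (2 * (w : ℝ)) := by positivity
  have hx1 : 1 / (2 * (w : ℝ)) ≤ 1 / 2 := by
    rw [hwR]
    apply one_div_le_one_div_of_le (by norm_num)
    linarith
  set x : ℝ := 1 / (2 * (w : ℝ)) with hx
  have hb0 : 0 < 1 - x := by linarith
  have hb1 : 1 - x ≤ 1 := by linarith
  have hbw : 1 / 2 ≤ (1 - x) ^ w := by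
    have h := one_add_mul_le_pow (a := -x) (by linarith) w
    have e1 : (1 : ℝ) + w * (-x) = 1 / 2 := by
      rw [hx]; field_simp; norm_num
    rw [e1, ← sub_eq_add_neg] at h
    exact h
  have hbig : (1 / 2 : ℝ) ^ (4 ^ j) ≤ (1 - x) ^ (s + g - 1) := by
    calc (1 / 2 : ℝ) ^ (4 ^ j) ≤ ((1 - x) ^ w) ^ (4 ^ j) :=
          pow_le_pow_left₀ (by norm_num) hbw _
      _ = (1 - x) ^ (w * 4 ^ j) := by rw [pow_mul]
      _ ≤ (1 - x) ^ (s + g - 1) := pow_le_pow_of_le_one hb0.le hb1 hnat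
  have hT1 : (1 / 2 ^ (4 ^ j + 6 + 2 * j)) / (1 - x) ^ (s + g - 1) ≤ 1 / (4 * (w : ℝ)) := by
    rw [div_le_iff₀ (pow_pos hb0 _)]
    calc (1 : ℝ) / 2 ^ (4 ^ j + 6 + 2 * j) = 1 / (4 * (w : ℝ)) * (1 / 2) ^ (4 ^ j) := by
          rw [hwR, pow_add, pow_add, pow_mul, one_div_pow]
          norm_num
          field_simp
          norm_num
      _ ≤ 1 / (4 * (w : ℝ)) * (1 - x) ^ (s + g - 1) :=
          mul_le_mul_of_nonneg_left hbig (by positivity)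
  have hT2 : (512 * ((2 ^ (l + 1) : ℕ) : ℝ) * (1 / (2 ^ (l + 17) * 4 ^ j))) / (1 - x) ^ (w - 1) ≤
      1 / (4 * (w : ℝ)) := by
    rw [div_le_iff₀ (pow_pos hb0 _)]
    have h3 : (1 / 2 : ℝ) ≤ (1 - x) ^ (w - 1) :=
      hbw.trans (pow_le_pow_of_le_one hb0.le hb1 (Nat.sub_le _ _))
    calc (512 * ((2 ^ (l + 1) : ℕ) : ℝ) * (1 / (2 ^ (l + 17) * 4 ^ j)))
          = 1 / (4 * (w : ℝ)) * (1 / 2) := by
          rw [hwR]
          push_cast
          rw [pow_add, pow_add]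
          field_simp
          norm_num
      _ ≤ 1 / (4 * (w : ℝ)) * (1 - x) ^ (w - 1) :=
          mul_le_mul_of_nonneg_left h3 (by positivity)
  have hsum : 1 / (4 * (w : ℝ)) + 1 / (4 * (w : ℝ)) = x := by
    rw [hx]; field_simp; norm_num
  linarith


end Pool.Agent.Helper483.Lac
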