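import Mathlib
import Pool.Agent.Helper483.Lac.Defs2
import Pool.Agent.Helper483.Lac.Base
import Pool.Agent.Helper483.Lac.Core
import Pool.Agent.Helper483.Lac.NdCpt
import Pool.Agent.Helper483.Lac.ExistsBlocks
import Pool.Agent.Helper483.Lac.ClusterLe
import Pool.Agent.Helper483.Lac.ParamSum

set_option autoImplicit false

namespace Pool.Agent.Helper483.Lac

open MeasureTheory Finset


theorem main_pow_aux (j : ℕ) (hj : 5 ≤ j) : 12 * 4 ^ j ≤ 8 ^ j ∧ 12 + 2 * j ≤ 4 * 4 ^ j := by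
  constructor
  · have h1 : (8 : ℕ) ^ j = 2 ^ j * 4 ^ j := by rw [← mul_pow]; norm_num
    have h2 : (2 : ℕ) ^ 5 ≤ 2 ^ j := Nat.pow_le_pow_right (by norm_num) hj
    rw [h1]
    exact Nat.mul_le_mul_right _ (by omega)
  · have h3 : j < 4 ^ j := Nat.lt_pow_self (by norm_num)
    have h2 : (4 : ℕ) ^ 5 ≤ 4 ^ j := Nat.pow_le_pow_right (by norm_num) hj
    omega

theorem main_pow (j l : ℕ) (hj : 5 ≤ j) (h1 : 8 ^ j ≤ l) (h2 : l < 8 ^ (j + 1))
    (t : ℕ → ℝ) (ht : IsLac ((2 : ℝ) ^ l) t) :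
    ∃ α, ∀ n, 1 / (2 ^ (l + 17) * 4 ^ j : ℝ) ≤ nd (α * t n) := by
  obtain ⟨a1, a2⟩ := main_pow_aux j hj
  obtain ⟨h, hh⟩ : ∃ h, h = l - 12 * 4 ^ j := ⟨_, rfl⟩
  obtain ⟨g, hg⟩ : ∃ g, g = (h + 2) * 2 ^ j + 2 * h + 2 + l := ⟨_, rfl⟩
  obtain ⟨s, hs⟩ : ∃ s, s = h + 5 := ⟨_, rfl⟩
  obtain ⟨w, hw⟩ : ∃ w, w = 16 * 4 ^ j := ⟨_, rfl⟩
  obtain ⟨u, hu⟩ : ∃ u, u = s + w := ⟨_, rfl⟩
  have t0 : 0 < t 0 := ht.1 0
  have hw1 : 1 ≤ w := by
    have : 0 < 4 ^ j := Nat.pos_of_ne_zero (by positivity)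
    omega
  have hw1' : (1 : ℝ) ≤ (w : ℝ) := by exact_mod_cast hw1
  obtain ⟨t', ht'⟩ : ∃ t' : ℕ → ℝ, ∀ n, t' n = ((2 : ℝ) ^ g / t 0) * t n := ⟨_, fun n => rfl⟩
  have hq : (0 : ℝ) < (2 : ℝ) ^ g / t 0 := by positivity
  have hlac : IsLac ((2 : ℝ) ^ l) t' := by
    refine ⟨fun n => ?_, fun n => ?_⟩
    · rw [ht']
      exact mul_pos hq (ht.1 n)
    · rw [ht', ht', mul_div_mul_left _ _ hq.ne']
      exact ht.2 n
  have h0 : (2 : ℝ) ^ g ≤ t' 0 := by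
    rw [ht', div_mul_cancel₀ _ t0.ne']
  obtain ⟨J, J1, J2, J3, J4, J5⟩ := exists_blocks l g t' hlac h0
  choose b hb using J5
  have hc := compact_pt t' (1 / (2 ^ (l + 17) * 4 ^ j : ℝ)) (by
    intro N
    have hcore := core (2 ^ h) J t' h s u w g (2 ^ (l + 1)) (1 / 2 ^ (4 ^ j + 6 + 2 * j))
      (1 / (2 ^ (l + 17) * 4 ^ j : ℝ)) (1 / (2 * (w : ℝ))) rfl hs hu hw1 (by positivity)
      (by
        apply one_div_le_one_div_of_le (by positivity)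
        have e1 : (16 : ℝ) * ((2 ^ h : ℕ) : ℝ) = 2 ^ (h + 4) := by
          push_cast; ring
        rw [e1]
        have e2 : (2 : ℝ) ^ (h + 4) ≤ 2 ^ (l + 17) :=
          pow_le_pow_right₀ (by norm_num) (by omega)
        have e3 : (1 : ℝ) ≤ 4 ^ j := one_le_pow₀ (by norm_num)
        have e4 : (0 : ℝ) < 2 ^ (l + 17) := by positivity
        nlinarith)
      (by
        apply one_div_le_one_div_of_le (by positivity)
        have e1 : (4 : ℝ) ^ j = 2 ^ (2 * j) := by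
          rw [pow_mul]; norm_num
        rw [e1, ← pow_add]
        exact pow_le_pow_right₀ (by norm_num) (by omega))
      (by positivity) (fun i n hn => (J1 i n).1 hn) J2
      (fun i hi k => cluster_le j l h g hj h1 h2 hh hg (J i) t' i hi (J3 i)
        (fun n hn => (J1 i n).1 hn) (J4 i) k)
      (by positivity)
      (by
        rw [div_lt_one (by positivity)]
        linarith)
      (param_sum j l h s g w hj h1 h2 hh hg hs hw)
      ((Finset.range N).sup b)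
    obtain ⟨α, hα, hα2⟩ := hcore
    refine ⟨α, hα, fun n hn => ?_⟩
    exact hα2 (b n) (Finset.le_sup (Finset.mem_range.2 hn)) n (hb n))
  obtain ⟨α, hα⟩ := hc
  refine ⟨α * ((2 : ℝ) ^ g / t 0), fun n => ?_⟩
  have h5 := hα n
  rw [ht'] at h5
  rw [show α * ((2 : ℝ) ^ g / t 0) * t n = (2 : ℝ) ^ g / t 0 * t n * α by ring]
  exact h5


end Pool.Agent.Helper483.Lac
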