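import Mathlib
import Pool.Agent.Helper483.Lac.Defs2
import Pool.Agent.Helper483.Lac.MainPow

set_option autoImplicit false

namespace Pool.Agent.Helper483.Lac

open MeasureTheory Finset


theorem main_real : ∃ c : ℝ, 0 < c ∧ ∀ M : ℝ, 2 ≤ M → ∀ t : ℕ → ℝ, IsLac M t →
    ∃ α : ℝ, ∀ n, c / (M * (Real.log M) ^ (2 / 3 : ℝ)) ≤ nd (α * t n) := by
  obtain ⟨N0, hN0⟩ : ∃ N0 : ℕ, N0 = 8 ^ 5 := ⟨_, rfl⟩
  have hlog2 : 0 < Real.log 2 := Real.log_pos (by norm_num)
  set m0 : ℝ := 2 * (Real.log 2) ^ (2 / 3 : ℝ) with hm0d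
  have hm0 : 0 < m0 := by positivity
  set K1 : ℝ := 2 ^ 18 * (2 / Real.log 2) ^ (2 / 3 : ℝ) with hK1
  have hK10 : 0 < K1 := by positivity
  set K2 : ℝ := 2 ^ (N0 + 17) * 4 ^ 5 with hK2
  have hK20 : 0 < K2 := by positivity
  have hK : 0 < K1 + K2 / m0 := by positivity
  refine ⟨1 / (K1 + K2 / m0), by positivity, fun M hM t ht => ?_⟩
  have hM0 : 0 < M := by linarith
  have hlogM : Real.log 2 ≤ Real.log M := Real.log_le_log (by norm_num) hM
  have hlogM0 : 0 < Real.log M := hlog2.trans_le hlogM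
  have hlb : Real.logb 2 M = Real.log M / Real.log 2 := rfl
  have hlb1 : 1 ≤ Real.logb 2 M := by
    rw [hlb, le_div_iff₀ hlog2]; linarith
  set a := ⌈Real.logb 2 M⌉₊ with ha
  have ha1 : Real.logb 2 M ≤ a := Nat.le_ceil _
  have ha2 : (a : ℝ) < Real.logb 2 M + 1 := Nat.ceil_lt_add_one (by linarith)
  obtain ⟨l, hl⟩ : ∃ l, l = max a N0 := ⟨_, rfl⟩
  have hal : a ≤ l := hl ▸ le_max_left _ _
  have hNl : N0 ≤ l := hl ▸ le_max_right _ _
  have hN0pos : 0 < N0 := by rw [hN0]; positivity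
  have hl0 : l ≠ 0 := by omega
  obtain ⟨j, hj⟩ : ∃ j, j = Nat.log 8 l := ⟨_, rfl⟩
  have hj5 : 5 ≤ j := by
    rw [hj]
    exact Nat.le_log_of_pow_le (by norm_num) (hN0 ▸ hNl)
  have h1 : 8 ^ j ≤ l := by rw [hj]; exact Nat.pow_log_le_self 8 hl0
  have h2 : l < 8 ^ (j + 1) := by rw [hj]; exact Nat.lt_pow_succ_log_self (by norm_num) l
  have hMa : M ≤ 2 ^ l := by
    have h3 : M = (2 : ℝ) ^ (Real.logb 2 M) := (Real.rpow_logb (by norm_num) (by norm_num) hM0).symm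
    rw [h3, ← Real.rpow_natCast]
    refine Real.rpow_le_rpow_of_exponent_le (by norm_num) (ha1.trans ?_)
    exact_mod_cast hal
  have ht' : IsLac ((2 : ℝ) ^ l) t := by
    refine ⟨ht.1, fun j => le_trans ?_ (ht.2 j)⟩
    have : 1 / (2 : ℝ) ^ l ≤ 1 / M := one_div_le_one_div_of_le hM0 hMa
    linarith
  obtain ⟨α, hα⟩ := main_pow j l hj5 h1 h2 t ht'
  refine ⟨α, fun n => le_trans ?_ (hα n)⟩
  have hlM : 0 < (Real.log M) ^ (2 / 3 : ℝ) := Real.rpow_pos_of_pos hlogM0 _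
  have hX : 0 < M * (Real.log M) ^ (2 / 3 : ℝ) := by positivity
  have hXm : m0 ≤ M * (Real.log M) ^ (2 / 3 : ℝ) := by
    rw [hm0d]
    have h5 : (Real.log 2) ^ (2 / 3 : ℝ) ≤ (Real.log M) ^ (2 / 3 : ℝ) :=
      Real.rpow_le_rpow hlog2.le hlogM (by norm_num)
    exact mul_le_mul hM h5 (by positivity) hM0.le
  have hmain : (2 : ℝ) ^ (l + 17) * 4 ^ j ≤
      (K1 + K2 / m0) * (M * (Real.log M) ^ (2 / 3 : ℝ)) := by
    rcases le_total a N0 with h | h
    · have hlN : l = N0 := by rw [hl]; exact max_eq_right h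
      have hj' : j = 5 := by
        rw [hj, hlN, hN0]
        exact Nat.log_pow (by norm_num) 5
      rw [hlN, hj', ← hK2]
      have h6 : K2 = K2 / m0 * m0 := by field_simp
      calc K2 = K2 / m0 * m0 := h6
        _ ≤ K2 / m0 * (M * (Real.log M) ^ (2 / 3 : ℝ)) := by gcongr
        _ ≤ (K1 + K2 / m0) * (M * (Real.log M) ^ (2 / 3 : ℝ)) := by
          gcongr
          linarith
    · have hla : l = a := by rw [hl]; exact max_eq_left h
      have h7 : (2 : ℝ) ^ a ≤ 2 * M := by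
        have h8 : (2 : ℝ) ^ a = (2 : ℝ) ^ (a : ℝ) := (Real.rpow_natCast _ _).symm
        rw [h8]
        calc (2 : ℝ) ^ (a : ℝ) ≤ (2 : ℝ) ^ (Real.logb 2 M + 1) :=
              Real.rpow_le_rpow_of_exponent_le (by norm_num) ha2.le
          _ = 2 * M := by
              rw [Real.rpow_add (by norm_num), Real.rpow_logb (by norm_num) (by norm_num) hM0,
                Real.rpow_one, mul_comm]
      have h9 : (4 : ℝ) ^ j ≤ (a : ℝ) ^ (2 / 3 : ℝ) := by
        have ha0 : (0 : ℝ) ≤ a := Nat.cast_nonneg _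
        rw [← pow_le_pow_iff_left₀ (by positivity) (by positivity) (three_ne_zero)]
        have e1 : ((a : ℝ) ^ (2 / 3 : ℝ)) ^ 3 = (a : ℝ) ^ 2 := by
          rw [← Real.rpow_natCast, ← Real.rpow_mul ha0]
          norm_num
        have e2 : ((4 : ℝ) ^ j) ^ 3 = ((8 : ℝ) ^ j) ^ 2 := by
          rw [← pow_mul, ← pow_mul, mul_comm j 3, mul_comm j 2, pow_mul, pow_mul]
          norm_num
        rw [e1, e2]
        refine pow_le_pow_left₀ (by positivity) ?_ 2
        rw [hla] at h1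
        exact_mod_cast h1
      have h10 : (a : ℝ) ^ (2 / 3 : ℝ) ≤
          (2 / Real.log 2) ^ (2 / 3 : ℝ) * (Real.log M) ^ (2 / 3 : ℝ) := by
        rw [← Real.mul_rpow (by positivity) hlogM0.le]
        refine Real.rpow_le_rpow (Nat.cast_nonneg _) ?_ (by norm_num)
        have : 2 / Real.log 2 * Real.log M = 2 * Real.logb 2 M := by rw [hlb]; ring
        rw [this]
        linarith
      rw [hla]
      calc (2 : ℝ) ^ (a + 17) * 4 ^ j = 2 ^ 17 * (2 : ℝ) ^ a * 4 ^ j := by rw [pow_add]; ring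
        _ ≤ 2 ^ 17 * (2 * M) *
            ((2 / Real.log 2) ^ (2 / 3 : ℝ) * (Real.log M) ^ (2 / 3 : ℝ)) := by
          gcongr
          exact h9.trans h10
        _ = K1 * (M * (Real.log M) ^ (2 / 3 : ℝ)) := by rw [hK1]; ring
        _ ≤ (K1 + K2 / m0) * (M * (Real.log M) ^ (2 / 3 : ℝ)) := by
          gcongr
          have : 0 < K2 / m0 := by positivity
          linarith
  rw [div_div]
  exact one_div_le_one_div_of_le (by positivity) hmain


end Pool.Agent.Helper483.Lac
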