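import Mathlib
import Pool.Agent.Helper483.Lac.Defs2
import Pool.Agent.Helper483.Lac.MainReal
import Pool.Agent.Helper483.Lac.FGe

set_option autoImplicit false

namespace Pool.Agent.Helper483.Lac

open MeasureTheory Finset


theorem final : (∃ c : ℝ, 0 < c ∧ ∀ M : ℝ, 2 ≤ M → c / (M * (Real.log M) ^ (2 / 3 : ℝ)) ≤ F M) ∧
    Filter.Tendsto (fun M : ℝ => F M * (M * Real.log M)) Filter.atTop Filter.atTop := by
  obtain ⟨c, hc, hmain⟩ := main_real
  have h1 : ∀ M : ℝ, 2 ≤ M → c / (M * (Real.log M) ^ (2 / 3 : ℝ)) ≤ F M := fun M hM =>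
    F_ge M _ (by linarith) (hmain M hM)
  refine ⟨⟨c, hc, h1⟩, ?_⟩
  have h2 : Filter.Tendsto (fun M : ℝ => c * (Real.log M) ^ (1 / 3 : ℝ)) Filter.atTop
      Filter.atTop :=
    ((tendsto_rpow_atTop (by norm_num : (0 : ℝ) < 1 / 3)).comp
      Real.tendsto_log_atTop).const_mul_atTop hc
  refine Filter.tendsto_atTop_mono' _ ?_ h2
  filter_upwards [Filter.eventually_ge_atTop (2 : ℝ)] with M hM
  have hMpos : 0 < M := by linarith
  have hlog : 0 < Real.log M := Real.log_pos (by linarith)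
  have h3 := mul_le_mul_of_nonneg_right (h1 M hM) (mul_pos hMpos hlog).le
  have h4 : c / (M * (Real.log M) ^ (2 / 3 : ℝ)) * (M * Real.log M) =
      c * (Real.log M) ^ (1 / 3 : ℝ) := by
    have h5 : Real.log M = (Real.log M) ^ (2 / 3 : ℝ) * (Real.log M) ^ (1 / 3 : ℝ) := by
      rw [← Real.rpow_add hlog]
      norm_num
    have h6 : 0 < (Real.log M) ^ (2 / 3 : ℝ) := Real.rpow_pos_of_pos hlog _
    rw [div_mul_eq_mul_div, div_eq_iff (by positivity)]
    calc c * (M * Real.log M) = c * (M * ((Real.log M) ^ (2 / 3 : ℝ) * (Real.log M) ^ (1 / 3 : ℝ))) := by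
          rw [← h5]
      _ = c * Real.log M ^ (1 / 3 : ℝ) * (M * Real.log M ^ (2 / 3 : ℝ)) := by ring
  rw [h4] at h3
  exact h3

end Pool.Agent.Helper483.Lac
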